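import Pool.Agent.H185F.Split
import Pool.Agent.H185F.Uncross
import Pool.Agent.H239R2.Cover.EdgeConn
import Pool.Agent.H126R2.CDC.PackK

set_option autoImplicit false
set_option linter.unusedSectionVars false

/-!
Edge-disjoint connectors of a set of terminals in a graph all of whose cuts are even (by splitting
off).
-/

namespace Pool.Agent.J4.H47.HE

open Finset
open Pool.Agent.H239R2.Cover (ecut mem_ecut Leaves rv inc Rt rank_cond span_of_connects dv rv_inc)
open Pool.Agent.H185F (ecut_compl ecut_submod ecut_posimod ecut_insert t3_card t5_sum)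
open Pool.Agent.Helper879.ECD (sp)

variable {V E : Type} [Fintype V] [DecidableEq V] [Fintype E] [DecidableEq E]

/-- `X` separates two vertices of `A`. -/
def Splits (A X : Finset V) : Prop := (∃ a ∈ A, a ∈ X) ∧ ∃ a ∈ A, a ∉ X

lemma splits_compl {A X : Finset V} (h : Splits A X) : Splits A Xᶜ := by
  obtain ⟨⟨a, ha, ha'⟩, b, hb, hb'⟩ := h
  exact ⟨⟨b, hb, by simpa using hb'⟩, a, ha, by simpa using ha'⟩

theorem union_tight (A : Finset V) (n : ℕ) (src dst : E → V)
    (hc : ∀ X, Splits A X → n ≤ (ecut src dst X).card) (e : E) (X Y : Finset V)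
    (he : (src e ∈ X ∩ Y ∧ dst e ∉ X ∪ Y) ∨ (dst e ∈ X ∩ Y ∧ src e ∉ X ∪ Y))
    (hX : Splits A X) (hY : Splits A Y) (hX' : (ecut src dst X).card = n)
    (hY' : (ecut src dst Y).card = n) :
    Splits A (X ∪ Y) ∧ (ecut src dst (X ∪ Y)).card = n := by
  have h1 := ecut_posimod src dst X Y e he
  have h2 := ecut_submod src dst X Y
  have key : Splits A (X ∩ Y) ∧ Splits A (X ∪ Y) := by
    obtain ⟨⟨a, ha, haX⟩, b, hb, hbX⟩ := hX
    obtain ⟨⟨c, hc1, hcY⟩, d, hd, hdY⟩ := hY
    by_cases h3 : ∃ u ∈ A, u ∈ X \ Y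
    · by_cases h4 : ∃ u ∈ A, u ∈ Y \ X
      · exfalso
        obtain ⟨u, hu, hu'⟩ := h3
        obtain ⟨w, hw, hw'⟩ := h4
        have h5 := hc (X \ Y) ⟨⟨u, hu, hu'⟩, w, hw, by
          rw [Finset.mem_sdiff] at hw' ⊢; tauto⟩
        have h6 := hc (Y \ X) ⟨⟨w, hw, hw'⟩, u, hu, by
          rw [Finset.mem_sdiff] at hu' ⊢; tauto⟩
        omega
      · push Not at h4
        have h5 : c ∈ X := by
          by_contra h
          exact h4 c hc1 (Finset.mem_sdiff.2 ⟨hcY, h⟩)
        have h6 : b ∉ Y := by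
          intro h
          exact h4 b hb (Finset.mem_sdiff.2 ⟨h, hbX⟩)
        refine ⟨⟨⟨c, hc1, Finset.mem_inter.2 ⟨h5, hcY⟩⟩, b, hb, ?_⟩, ⟨c, hc1, ?_⟩, b, hb, ?_⟩
        · rw [Finset.mem_inter]; tauto
        · rw [Finset.mem_union]; tauto
        · rw [Finset.mem_union]; tauto
    · push Not at h3
      have h5 : a ∈ Y := by
        by_contra h
        exact h3 a ha (Finset.mem_sdiff.2 ⟨haX, h⟩)
      have h6 : d ∉ X := by
        intro h
        exact h3 d hd (Finset.mem_sdiff.2 ⟨h, hdY⟩)
      refine ⟨⟨⟨a, ha, Finset.mem_inter.2 ⟨haX, h5⟩⟩, d, hd, ?_⟩, ⟨a, ha, ?_⟩, d, hd, ?_⟩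
      · rw [Finset.mem_inter]; tauto
      · rw [Finset.mem_union]; tauto
      · rw [Finset.mem_union]; tauto
  have h7 := hc _ key.1
  have h8 := hc _ key.2
  exact ⟨key.2, by omega⟩

/-- The edge `e` joins `y` and `a`. -/
def Joins (src dst : E → V) (e : E) (y a : V) : Prop :=
  (src e = y ∧ dst e = a) ∨ (src e = a ∧ dst e = y)

/-- The new end map after splitting off: `e` gets the end `a`, and `f` becomes a loop at `y`. -/
def newEnd (src : E → V) (e f : E) (y a : V) : E → V :=
  Function.update (Function.update src e a) f y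

lemma newEnd_f (src : E → V) (e f : E) (y a : V) : newEnd src e f y a f = y := by
  unfold newEnd; rw [Function.update_self]

lemma newEnd_e (src : E → V) (e f : E) (hef : e ≠ f) (y a : V) : newEnd src e f y a e = a := by
  unfold newEnd; rw [Function.update_of_ne hef, Function.update_self]

lemma newEnd_g (src : E → V) (e f : E) (y a : V) (g : E) (he : g ≠ e) (hf : g ≠ f) :
    newEnd src e f y a g = src g := by
  unfold newEnd; rw [Function.update_of_ne hf, Function.update_of_ne he]

theorem cut_split (src dst : E → V) (e f : E) (hef : e ≠ f) (y a b : V)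
    (he : Joins src dst e y a) (hf : Joins src dst f y b) (X : Finset V) (hy : y ∉ X) :
    (ecut (newEnd src e f y a) (newEnd dst e f y b) X).card + (if a ∈ X ∧ b ∈ X then 2 else 0) =
      (ecut src dst X).card := by
  have h1 : (ecut src dst X).card =
      ∑ g ∈ Finset.univ \ {e, f}, (if ¬ (src g ∈ X ↔ dst g ∈ X) then 1 else 0) +
        ((if a ∈ X then 1 else 0) + (if b ∈ X then 1 else 0)) := by
    unfold ecut
    rw [Finset.card_filter, t5_sum e f hef]
    congr 2
    · rcases he with ⟨h, h'⟩ | ⟨h, h'⟩ <;> rw [h, h'] <;> by_cases h2 : a ∈ X <;> simp [hy, h2]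
    · rcases hf with ⟨h, h'⟩ | ⟨h, h'⟩ <;> rw [h, h'] <;> by_cases h2 : b ∈ X <;> simp [hy, h2]
  have h2 : (ecut (newEnd src e f y a) (newEnd dst e f y b) X).card =
      ∑ g ∈ Finset.univ \ {e, f}, (if ¬ (src g ∈ X ↔ dst g ∈ X) then 1 else 0) +
        ((if ¬ (a ∈ X ↔ b ∈ X) then 1 else 0) + 0) := by
    unfold ecut
    rw [Finset.card_filter, t5_sum e f hef, newEnd_e src e f hef, newEnd_e dst e f hef, newEnd_f,
      newEnd_f]
    congr 1
    · refine Finset.sum_congr rfl fun g hg => ?_
      rw [Finset.mem_sdiff, Finset.mem_insert, Finset.mem_singleton, not_or] at hg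
      rw [newEnd_g src e f y a g hg.2.1 hg.2.2, newEnd_g dst e f y b g hg.2.1 hg.2.2]
    · simp
  rw [h1, h2]
  by_cases ha : a ∈ X <;> by_cases hb : b ∈ X <;> simp [ha, hb]

theorem even_split (src dst : E → V) (e f : E) (hef : e ≠ f) (y a b : V)
    (he : Joins src dst e y a) (hf : Joins src dst f y b)
    (hev : ∀ X, Even (ecut src dst X).card) (X : Finset V) :
    Even (ecut (newEnd src e f y a) (newEnd dst e f y b) X).card := by
  have main : ∀ X : Finset V, y ∉ X →
      Even (ecut (newEnd src e f y a) (newEnd dst e f y b) X).card := by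
    intro X hX
    have h1 := cut_split src dst e f hef y a b he hf X hX
    have h2 := hev X
    rw [← h1] at h2
    split_ifs at h2 with h3
    · exact (Nat.even_add.1 h2).2 even_two
    · simpa using h2
  by_cases h : y ∈ X
  · rw [← ecut_compl]
    exact main _ (by simpa using h)
  · exact main X h

lemma joins_of_cut (src dst : E → V) (y : V) (f : E) (hf : f ∈ ecut src dst {y}) :
    ∃ b, b ≠ y ∧ Joins src dst f y b := by
  rw [mem_ecut, Finset.mem_singleton, Finset.mem_singleton] at hf
  by_cases h1 : src f = y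
  · by_cases h2 : dst f = y
    · exact absurd (by simp [h1, h2]) hf
    · exact ⟨dst f, h2, Or.inl ⟨h1, rfl⟩⟩
  · by_cases h2 : dst f = y
    · exact ⟨src f, h1, Or.inr ⟨rfl, h2⟩⟩
    · exact absurd (by simp [h1, h2]) hf

lemma cut_of_joins (src dst : E → V) (y b : V) (f : E) (hb : b ≠ y) (hf : Joins src dst f y b) :
    f ∈ ecut src dst {y} := by
  rw [mem_ecut, Finset.mem_singleton, Finset.mem_singleton]
  rcases hf with ⟨h, h'⟩ | ⟨h, h'⟩ <;> rw [h, h'] <;> simp [hb]

theorem exists_admissible (A : Finset V) (N : ℕ) (src dst : E → V)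
    (hev : ∀ X, Even (ecut src dst X).card)
    (hc : ∀ X, Splits A X → 2 * N ≤ (ecut src dst X).card) (y a : V) (hyA : y ∉ A) (hay : a ≠ y)
    (e : E) (he : Joins src dst e y a) :
    ∃ f b, e ≠ f ∧ b ≠ y ∧ Joins src dst f y b ∧
      ∀ X, Splits A X → 2 * N ≤ (ecut (newEnd src e f y a) (newEnd dst e f y b) X).card := by
  classical
  -- it is enough to consider the sets without `y`
  have red : ∀ f b, e ≠ f → Joins src dst f y b →
      (∀ X, Splits A X → y ∉ X → a ∈ X → b ∈ X → (ecut src dst X).card ≠ 2 * N) →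
      ∀ X, Splits A X → 2 * N ≤ (ecut (newEnd src e f y a) (newEnd dst e f y b) X).card := by
    intro f b hef hf h
    have main : ∀ X, Splits A X → y ∉ X →
        2 * N ≤ (ecut (newEnd src e f y a) (newEnd dst e f y b) X).card := by
      intro X hX hy
      have h1 := cut_split src dst e f hef y a b he hf X hy
      have h2 := hc X hX
      split_ifs at h1 with h3
      · have h4 := h X hX hy h3.1 h3.2
        obtain ⟨k, hk⟩ := hev X
        omega
      · omega
    intro X hX
    by_cases hy : y ∈ X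
    · rw [← ecut_compl]
      exact main _ (splits_compl hX) (by simpa using hy)
    · exact main X hX hy
  set T : Finset (Finset V) := univ.filter (fun X => a ∈ X ∧ y ∉ X ∧ Splits A X ∧
    (ecut src dst X).card = 2 * N) with hT
  have hmem : ∀ X, X ∈ T ↔ (a ∈ X ∧ y ∉ X ∧ Splits A X ∧ (ecut src dst X).card = 2 * N) := by
    intro X
    rw [hT, Finset.mem_filter]
    simp
  have hecut : e ∈ ecut src dst {y} := cut_of_joins src dst y a e hay he
  by_cases hTe : T.Nonempty
  · obtain ⟨Z, hZ, hZmax⟩ := Finset.exists_max_image T Finset.card hTe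
    obtain ⟨hZa, hZy, hZs, hZc⟩ := (hmem Z).1 hZ
    -- an edge from `y` to the outside of `Z`
    have hex : ∃ f ∈ ecut src dst {y}, ¬ ((src f = y → dst f ∈ Z) ∧ (dst f = y → src f ∈ Z)) := by
      by_contra hno
      push Not at hno
      have h1 := ecut_insert src dst Z y hZy (fun f hf => hno f hf)
      have h2 : Splits A (insert y Z) := by
        obtain ⟨⟨u, hu, hu'⟩, w, hw, hw'⟩ := hZs
        refine ⟨⟨u, hu, Finset.mem_insert_of_mem hu'⟩, w, hw, ?_⟩
        rw [Finset.mem_insert]
        rintro (h | h)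
        · exact hyA (h ▸ hw)
        · exact hw' h
      have h3 := hc _ h2
      have h4 : 0 < (ecut src dst {y}).card := Finset.card_pos.2 ⟨e, hecut⟩
      omega
    obtain ⟨f, hf, hfZ⟩ := hex
    obtain ⟨b, hby, hb⟩ := joins_of_cut src dst y f hf
    have hbZ : b ∉ Z := by
      intro h
      apply hfZ
      rcases hb with ⟨h1, h2⟩ | ⟨h1, h2⟩
      · exact ⟨fun _ => h2 ▸ h, fun h3 => absurd (h2.symm.trans h3) hby⟩
      · exact ⟨fun h3 => absurd (h1.symm.trans h3) hby, fun _ => h1 ▸ h⟩
    have hef : e ≠ f := by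
      rintro rfl
      apply hbZ
      rcases he with ⟨h1, h2⟩ | ⟨h1, h2⟩ <;> rcases hb with ⟨h3, h4⟩ | ⟨h3, h4⟩
      · rw [← h4, h2]; exact hZa
      · exact absurd (h3.symm.trans h1) hby
      · exact absurd (h4.symm.trans h2) hby
      · rw [← h3, h1]; exact hZa
    refine ⟨f, b, hef, hby, hb, red f b hef hb ?_⟩
    intro X hX hyX haX hbX hcard
    have hU := union_tight A (2 * N) src dst hc e X Z (by
      rcases he with ⟨h1, h2⟩ | ⟨h1, h2⟩
      · right
        rw [h1, h2, Finset.mem_inter, Finset.mem_union]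
        exact ⟨⟨haX, hZa⟩, by tauto⟩
      · left
        rw [h1, h2, Finset.mem_inter, Finset.mem_union]
        exact ⟨⟨haX, hZa⟩, by tauto⟩) hX hZs hcard hZc
    have h1 : X ∪ Z ∈ T := (hmem _).2 ⟨Finset.mem_union_left _ haX, by
      rw [Finset.mem_union]; tauto, hU.1, hU.2⟩
    have h2 := hZmax _ h1
    have h3 : Z = X ∪ Z := Finset.eq_of_subset_of_card_le Finset.subset_union_right h2
    apply hbZ
    rw [h3]
    exact Finset.mem_union_left _ hbX
  · rw [Finset.not_nonempty_iff_eq_empty] at hTe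
    have hex : ∃ f ∈ ecut src dst {y}, e ≠ f := by
      by_contra hno
      push Not at hno
      have h1 : ecut src dst {y} = {e} := by
        ext g
        rw [Finset.mem_singleton]
        exact ⟨fun h => (hno g h).symm, fun h => h ▸ hecut⟩
      have h2 := hev {y}
      rw [h1, Finset.card_singleton] at h2
      exact absurd h2 (by decide)
    obtain ⟨f, hf, hef⟩ := hex
    obtain ⟨b, hby, hb⟩ := joins_of_cut src dst y f hf
    refine ⟨f, b, hef, hby, hb, red f b hef hb ?_⟩
    intro X hX hyX haX hbX hcard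
    have : X ∈ T := (hmem _).2 ⟨haX, hyX, hX, hcard⟩
    rw [hTe] at this
    exact absurd this (Finset.notMem_empty _)

/-- Connectors of `A`. -/
def HasConn (A : Finset V) (N : ℕ) (src dst : E → V) : Prop :=
  ∃ R : Fin N → Finset E, (∀ i j, i ≠ j → Disjoint (R i) (R j)) ∧
    ∀ j X, Splits A X → ∃ g ∈ R j, g ∈ ecut src dst X

theorem lift_conn (A : Finset V) (N : ℕ) (src dst : E → V) (e f : E) (hef : e ≠ f) (y a b : V)
    (he : Joins src dst e y a) (hf : Joins src dst f y b)
    (h : HasConn A N (newEnd src e f y a) (newEnd dst e f y b)) : HasConn A N src dst := by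
  classical
  obtain ⟨R, hd, hR⟩ := h
  refine ⟨fun j => if e ∈ R j then insert f (R j) else (R j).erase f, ?_, ?_⟩
  · intro i j hij
    have h1 := Finset.disjoint_left.1 (hd i j hij)
    rw [Finset.disjoint_left]
    intro g hg hg'
    by_cases hei : e ∈ R i
    · have hej : e ∉ R j := h1 hei
      simp only [if_pos hei, if_neg hej, Finset.mem_insert, Finset.mem_erase] at hg hg'
      rcases hg with rfl | hg
      · exact hg'.1 rfl
      · exact h1 hg hg'.2
    · by_cases hej : e ∈ R j
      · simp only [if_neg hei, if_pos hej, Finset.mem_insert, Finset.mem_erase] at hg hg'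
        rcases hg' with rfl | hg'
        · exact hg.1 rfl
        · exact h1 hg.2 hg'
      · simp only [if_neg hei, if_neg hej, Finset.mem_erase] at hg hg'
        exact h1 hg.2 hg'.2
  · intro j X hX
    obtain ⟨g, hg, hgX⟩ := hR j X hX
    rw [mem_ecut] at hgX
    by_cases hgf : g = f
    · subst hgf
      rw [newEnd_f, newEnd_f] at hgX
      exact absurd Iff.rfl hgX
    · by_cases hge : g = e
      · subst hge
        rw [newEnd_e src g f hef, newEnd_e dst g f hef] at hgX
        have h2 : (g ∈ ecut src dst X) ∨ f ∈ ecut src dst X := by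
          rw [mem_ecut, mem_ecut]
          rcases he with ⟨h1, h2⟩ | ⟨h1, h2⟩ <;> rcases hf with ⟨h3, h4⟩ | ⟨h3, h4⟩ <;>
            rw [h1, h2, h3, h4] <;> tauto
        simp only [if_pos hg]
        rcases h2 with h2 | h2
        · exact ⟨g, Finset.mem_insert_of_mem hg, h2⟩
        · exact ⟨f, Finset.mem_insert_self _ _, h2⟩
      · rw [newEnd_g src e f y a g hge hgf, newEnd_g dst e f y b g hge hgf] at hgX
        refine ⟨g, ?_, (mem_ecut _ _ _ _).2 hgX⟩
        by_cases hej : e ∈ R j
        · simp only [if_pos hej]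
          exact Finset.mem_insert_of_mem hg
        · simp only [if_neg hej]
          exact Finset.mem_erase.2 ⟨hgf, hg⟩

/-- The number of the edges, not loops, with an end outside `A`. -/
def mu (A : Finset V) (src dst : E → V) : ℕ :=
  (univ.filter (fun g => src g ≠ dst g ∧ (src g ∉ A ∨ dst g ∉ A))).card

theorem mu_split (A : Finset V) (src dst : E → V) (e f : E) (hef : e ≠ f) (y a b : V)
    (hyA : y ∉ A) (hay : a ≠ y) (hby : b ≠ y)
    (he : Joins src dst e y a) (hf : Joins src dst f y b) :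
    mu A (newEnd src e f y a) (newEnd dst e f y b) < mu A src dst := by
  unfold mu
  apply Finset.card_lt_card
  rw [Finset.ssubset_iff_of_subset]
  · refine ⟨f, ?_, ?_⟩
    · rw [Finset.mem_filter]
      refine ⟨Finset.mem_univ _, ?_⟩
      rcases hf with ⟨h1, h2⟩ | ⟨h1, h2⟩ <;> rw [h1, h2]
      · exact ⟨hby.symm, Or.inl hyA⟩
      · exact ⟨hby, Or.inr hyA⟩
    · rw [Finset.mem_filter, newEnd_f, newEnd_f]
      exact fun h => h.2.1 rfl
  · intro g hg
    rw [Finset.mem_filter] at hg ⊢
    refine ⟨Finset.mem_univ _, ?_⟩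
    by_cases h1 : g = f
    · rw [h1, newEnd_f, newEnd_f] at hg
      exact absurd rfl hg.2.1
    · by_cases h2 : g = e
      · rw [h2]
        rcases he with ⟨h3, h4⟩ | ⟨h3, h4⟩ <;> rw [h3, h4]
        · exact ⟨hay.symm, Or.inl hyA⟩
        · exact ⟨hay, Or.inr hyA⟩
      · rw [newEnd_g src e f y a g h2 h1, newEnd_g dst e f y b g h2 h1] at hg
        exact hg.2

end Pool.Agent.J4.H47.HE
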