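import Pool.Agent.H126R2.CDC.Defs

set_option autoImplicit false

/-!
The definitions used in the statement on circuit covers with heavy edges.
-/

namespace Pool.Agent.J4.H47.HE

open Finset
open Pool.Agent.H126R2.CDC (MGraph)

/-- The edges of `G` with an end in `X` and an end outside `X`. -/
def bd {V E : Type} [Fintype V] [DecidableEq V] [Fintype E] (G : MGraph V E) (X : Finset V) :
    Finset E :=
  univ.filter (fun e => (∃ x ∈ G.ends e, x ∈ X) ∧ ∃ x ∈ G.ends e, x ∉ X)

/-- The sum of the capacities of the edge `e` for the levels `0, ..., h`. -/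
def tot {E : Type} (h : ℕ) (w : ℕ → E → ℕ) (e : E) : ℕ := ∑ s ∈ Finset.range (h + 1), w s e

/-- The load of the edge `e` in the combination `y` of edge sets: the sum of the coefficients of
the edge sets through `e`. -/
noncomputable def load {E : Type} [Fintype E] [DecidableEq E] (y : Finset E → ℝ) (e : E) : ℝ :=
  ∑ C : Finset E, if e ∈ C then y C else 0

/-- About `sqrt l`, up to logarithms of `N`. -/
noncomputable def depth (l N : ℕ) : ℝ :=
  min (Real.sqrt l * (1 + Real.log (1 + N)) ^ (1 / 4 : ℝ))
    (Real.sqrt l + (1 + Real.log l) ^ (3 / 2 : ℝ) * Real.sqrt (Real.log (1 + N)))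

end Pool.Agent.J4.H47.HE
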