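import Pool.Agent.J4.H47.HE.Forest2
import Pool.Agent.J4.H47.HE.Defs
import Pool.Agent.J4.H48.CC.Trails
import Pool.Agent.J4.H7.CC.Len
import Pool.Agent.H825R2.EW.Final

set_option autoImplicit false
set_option linter.unusedSectionVars false
set_option linter.unusedVariables false

/-!
Circuit covers of weightings with heavy edges whose ends are well connected by light edges.
-/

namespace Pool.Agent.J4.H47.HE

open Finset
open Pool.Agent.Helper879.ECD (F2 IsFlow f2_add_self f2_cases)
open Pool.Agent.H126R2.CDC (MGraph isFl_iff)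
open Pool.Agent.H126R2.NC (TC InCone InLat InIntCone cone_lat_of_intCone bridgeless_of_cone
  const_of_tc)
open Pool.Agent.H825R2.EW (circuits_of_flow)
open Pool.Agent.TH399.CC (exists_flow_on isFlow_add intCone_sum intCone_add odd_part)
open Pool.Agent.H239R2.Cover (ecut mem_ecut)
open Pool.Agent.J4.H48.CC (Leaves leaves_iff)

variable {V E : Type} [Fintype V] [DecidableEq V] [Fintype E] [DecidableEq E]

/-- The weighted form of the theorem on forests for pairs. -/
theorem forest_weighted (P : V → V → Prop) (N : ℕ) (src dst : E → V) (w : E → ℕ)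
    (hev : ∀ X, Even (∑ e ∈ ecut src dst X, w e))
    (hc : ∀ X, Sep P X → 4 * N ≤ ∑ e ∈ ecut src dst X, w e) :
    ∃ R : Fin N → Finset E, (∀ e, (univ.filter (fun j => e ∈ R j)).card ≤ w e) ∧
      ∀ j X, Sep P X → ∃ g ∈ R j, g ∈ ecut src dst X := by
  classical
  let s' : (Σ e, Fin (w e)) → V := fun x => src x.1
  let d' : (Σ e, Fin (w e)) → V := fun x => dst x.1
  have hcard : ∀ X, (ecut s' d' X).card = ∑ e ∈ ecut src dst X, w e := by
    intro X
    have h1 : ecut s' d' X = (ecut src dst X).sigma (fun e => (univ : Finset (Fin (w e)))) := by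
      ext x
      rw [mem_ecut, Finset.mem_sigma, mem_ecut]
      simp [s', d']
    rw [h1, Finset.card_sigma]
    simp
  obtain ⟨R, hd, hR⟩ := has_forest N (nlp s' d') (fun s t => P s t ∧ s ≠ t) s' d' le_rfl
    (fun s t h => h.2)
    (fun X => by rw [hcard]; exact hev X) (fun X hX => by
      rw [hcard]
      obtain ⟨s, t, h, hst⟩ := hX
      exact hc X ⟨s, t, h.1, hst⟩)
  refine ⟨fun j => (R j).image Sigma.fst, ?_, ?_⟩
  · intro e
    have h1 : ∀ j : {j : Fin N // e ∈ (R j).image Sigma.fst}, ∃ i : Fin (w e),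
        (⟨e, i⟩ : Σ e, Fin (w e)) ∈ R j.1 := by
      rintro ⟨j, hj⟩
      rw [Finset.mem_image] at hj
      obtain ⟨⟨e', i⟩, hx, he⟩ := hj
      simp only at he
      subst he
      exact ⟨i, hx⟩
    choose f hf using h1
    have h2 : Function.Injective f := by
      rintro i j hij
      by_contra hne
      have h3 : i.1 ≠ j.1 := fun h => hne (Subtype.ext h)
      have h4 := hf i
      rw [hij] at h4
      exact Finset.disjoint_left.1 (hd i.1 j.1 h3) h4 (hf j)
    have h3 := Fintype.card_le_of_injective f h2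
    rw [Fintype.card_fin, Fintype.card_subtype] at h3
    exact h3
  · intro j X hX
    obtain ⟨s, t, h, hst⟩ := hX
    obtain ⟨x, hx, hxX⟩ := hR j X ⟨s, t, ⟨h, fun h' => hst (by rw [h'])⟩, hst⟩
    refine ⟨x.1, Finset.mem_image_of_mem _ hx, ?_⟩
    rw [mem_ecut] at hxX ⊢
    exact hxX

/-- A flow with prescribed values off an edge set which connects the pairs. -/
theorem flow_off (src dst : E → V) (R F : Finset E) (P : V → V → Prop)
    (hP : ∀ e ∈ F, P (src e) (dst e)) (hR : ∀ X, Sep P X → ∃ g ∈ R, g ∈ ecut src dst X) :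
    ∃ φ : E → F2, IsFlow src dst φ ∧ ∀ e, e ∉ R → φ e = if e ∈ F then 1 else 0 := by
  classical
  obtain ⟨φ, hφ, hφF⟩ := exists_flow_on src dst (univ \ R) F (by
      intro c hc
      apply Finset.sum_eq_zero
      intro e he
      by_contra hne
      have hlv : ∀ f, c (src f) + c (dst f) ≠ 0 ↔
          ¬ (src f ∈ univ.filter (fun w => c w = 1) ↔ dst f ∈ univ.filter (fun w => c w = 1)) := by
        intro f
        simp only [Finset.mem_filter, Finset.mem_univ, true_and]
        have h2 : ∀ x y : ZMod 2, x + y ≠ 0 ↔ ¬ (x = 1 ↔ y = 1) := by decide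
        exact h2 _ _
      obtain ⟨f, hf, hf'⟩ := hR (univ.filter (fun w => c w = 1)) ⟨src e, dst e, hP e he,
        (hlv e).1 hne⟩
      exact (hlv f).2 ((mem_ecut _ _ _ _).1 hf') (hc f (by simp [hf])))
  exact ⟨φ, hφ, fun e he => hφF e (by simp [he])⟩

lemma isFlow_sum {ι : Type} {a b : E → V} (s : Finset ι) (φ : ι → E → F2)
    (h : ∀ i ∈ s, IsFlow a b (φ i)) : IsFlow a b (fun e => ∑ i ∈ s, φ i e) := by
  intro c
  simp only [Finset.sum_mul]
  rw [Finset.sum_comm]
  exact Finset.sum_eq_zero (fun i hi => h i hi c)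

lemma count_lt (N k : ℕ) (h : k ≤ N) : (univ.filter (fun j : Fin N => j.1 < k)).card = k := by
  rw [Finset.card_filter, ← Finset.sum_range (fun j => if j < k then 1 else 0),
    ← Finset.card_filter]
  have h7 : (Finset.range N).filter (fun t => t < k) = Finset.range k := by
    ext t
    rw [Finset.mem_filter, Finset.mem_range, Finset.mem_range]
    omega
  rw [h7, Finset.card_range]

lemma bd_eq (G : MGraph V E) (v : E × Bool → V)
    (hv : ∀ e, G.ends e = s(v (e, false), v (e, true))) (X : Finset V) :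
    bd G X = ecut (fun e => v (e, false)) (fun e => v (e, true)) X := by
  ext f
  rw [mem_ecut, ← leaves_iff G v hv]
  unfold bd Leaves
  rw [Finset.mem_filter]
  simp only [Finset.mem_univ, true_and]

/-- Weight two on an edge set with even degrees. -/
theorem part_one (G : MGraph V E) (L : Finset E) (p : E → ℕ)
    (hL : ∀ u, Even (G.deg L u)) (h2 : ∀ e ∈ L, p e = 2) (hp : ∀ e, Even (p e))
    (hcut : ∀ X : Finset V, ∀ e ∈ bd G X, e ∉ L → 0 < p e → ∀ e', e' ∉ L →
      2 * p e' + 8 ≤ (bd G X ∩ L).card) :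
    InIntCone G p := by
  classical
  obtain ⟨v, hv⟩ := G.exists_halves
  set src : E → V := fun e => v (e, false) with hsrc
  set dst : E → V := fun e => v (e, true) with hdst
  have hbd : ∀ X, bd G X = ecut src dst X := fun X => bd_eq G v hv X
  have hχ : IsFlow src dst (fun e => if e ∈ L then (1 : F2) else 0) := by
    rw [hsrc, hdst, ← isFl_iff, ← G.isEven_iff v hv]
    exact hL
  set n : ℕ := (univ.filter (fun e => e ∉ L)).sup (fun e => p e / 2) with hn
  let P : V → V → Prop := fun a b => ∃ e, e ∉ L ∧ 0 < p e ∧ src e = a ∧ dst e = b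
  have hsum : ∀ X, ∑ e ∈ ecut src dst X, (if e ∈ L then 1 else 0) = (bd G X ∩ L).card := by
    intro X
    rw [hbd, ← Finset.card_filter, Finset.filter_mem_eq_inter]
  obtain ⟨R, hRw, hRc⟩ := forest_weighted P (n + 2) src dst (fun e => if e ∈ L then 1 else 0) (by
      intro X
      show Even (∑ e ∈ ecut src dst X, (if e ∈ L then 1 else 0))
      have h3 := hχ (fun u => if u ∈ X then 1 else 0)
      have h4 : ((∑ e ∈ ecut src dst X, (if e ∈ L then 1 else 0) : ℕ) : F2) = 0 := by
        rw [← h3]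
        push_cast
        unfold ecut
        rw [Finset.sum_filter]
        refine Finset.sum_congr rfl fun e _ => ?_
        by_cases h5 : src e ∈ X <;> by_cases h6 : dst e ∈ X <;> by_cases h7 : e ∈ L <;>
          simp [h5, h6, h7]
        exact (f2_add_self 1).symm
      exact (ZMod.natCast_eq_zero_iff_even).1 h4) (by
      intro X hX
      show 4 * (n + 2) ≤ (∑ e ∈ ecut src dst X, (if e ∈ L then 1 else 0))
      obtain ⟨a, b, ⟨e, he, hpe, rfl, rfl⟩, hab⟩ := hX
      have h3 := hcut X e (by rw [hbd]; exact (mem_ecut _ _ _ _).2 hab) he hpe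
      have h4 : n ≤ ((bd G X ∩ L).card - 8) / 4 := by
        rw [hn]
        apply Finset.sup_le
        intro e' he'
        have h5 := h3 e' (Finset.mem_filter.1 he').2
        obtain ⟨k, hk⟩ := hp e'
        omega
      have h5 := h3 e he
      rw [hsum]
      omega)
  have hRL : ∀ j e, e ∈ R j → e ∈ L := by
    intro j e he
    by_contra h3
    have h4 := hRw e
    rw [if_neg h3] at h4
    have h5 : 0 < (univ.filter (fun j => e ∈ R j)).card :=
      Finset.card_pos.2 ⟨j, Finset.mem_filter.2 ⟨Finset.mem_univ _, he⟩⟩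
    omega
  have hRd : ∀ i j e, e ∈ R i → e ∈ R j → i = j := by
    intro i j e hi hj
    have h4 := hRw e
    rw [if_pos (hRL i e hi)] at h4
    exact Finset.card_le_one.1 h4 i (Finset.mem_filter.2 ⟨Finset.mem_univ _, hi⟩) j
      (Finset.mem_filter.2 ⟨Finset.mem_univ _, hj⟩)
  -- the flows
  have hφ : ∀ j : Fin (n + 2), ∃ φ : E → F2, IsFlow src dst φ ∧ ∀ e, e ∉ R j →
      φ e = if e ∈ univ.filter (fun e => e ∉ L ∧
        (if j.1 < n then j.1 < p e / 2 else p e / 2 % 2 = 1)) then 1 else 0 := by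
    intro j
    apply flow_off src dst (R j) _ P
    · intro e he
      rw [Finset.mem_filter] at he
      refine ⟨e, he.2.1, ?_, rfl, rfl⟩
      have h5 := he.2.2
      split_ifs at h5 <;> omega
    · exact hRc j
  choose φ hφf hφe using hφ
  let φ1 : Fin n → E → F2 := fun j => φ (Fin.castAdd 2 j)
  let a : E → F2 := φ ⟨n, by omega⟩
  let b : E → F2 := φ ⟨n + 1, by omega⟩
  let S : E → F2 := fun e => ∑ j, φ1 j e
  have hS : IsFlow src dst S := isFlow_sum univ φ1 (fun j _ => hφf _)
  have fA := circuits_of_flow G v hv _ (isFlow_add (isFlow_add hχ hS) (hφf ⟨n, by omega⟩))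
  have fB := circuits_of_flow G v hv _ (isFlow_add (isFlow_add hχ hS) (hφf ⟨n + 1, by omega⟩))
  have fC := circuits_of_flow G v hv _ (isFlow_add (hφf ⟨n, by omega⟩) (hφf ⟨n + 1, by omega⟩))
  have fD : InIntCone G (fun e => ∑ j : Fin n, if φ1 j e = 0 then 0 else 1) :=
    intCone_sum G univ _ (fun j _ => circuits_of_flow G v hv _ (hφf (Fin.castAdd 2 j)))
  refine intCone_add G (intCone_add G (intCone_add G (intCone_add G fA fB (fun e => rfl)) fC
    (fun e => rfl)) fD (fun e => rfl)) fD ?_
  intro e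
  show p e = (if (if e ∈ L then (1 : F2) else 0) + S e + a e = 0 then 0 else 1) +
    (if (if e ∈ L then (1 : F2) else 0) + S e + b e = 0 then 0 else 1) +
    (if a e + b e = 0 then 0 else 1) + (∑ j : Fin n, if φ1 j e = 0 then 0 else 1) +
    (∑ j : Fin n, if φ1 j e = 0 then 0 else 1)
  by_cases he : e ∈ L
  · have hz : ∀ j : Fin (n + 2), e ∉ R j → φ j e = 0 := by
      intro j hj
      rw [hφe j e hj, if_neg (fun h5 => (Finset.mem_filter.1 h5).2.1 he)]
    rw [h2 e he, if_pos he]
    by_cases hj : ∃ j : Fin n, e ∈ R (Fin.castAdd 2 j)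
    · obtain ⟨j, hj⟩ := hj
      have ha : a e = 0 := hz _ (fun h5 => by
        have h6 := congrArg Fin.val (hRd _ _ e h5 hj)
        simp only [Fin.val_castAdd] at h6
        have := j.2
        omega)
      have hb : b e = 0 := hz _ (fun h5 => by
        have h6 := congrArg Fin.val (hRd _ _ e h5 hj)
        simp only [Fin.val_castAdd] at h6
        have := j.2
        omega)
      have hz' : ∀ i : Fin n, i ≠ j → φ1 i e = 0 := by
        intro i hi
        apply hz
        intro h5
        have h6 := congrArg Fin.val (hRd _ _ e h5 hj)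
        simp only [Fin.val_castAdd] at h6
        exact hi (Fin.ext h6)
      have hSe : S e = φ1 j e := Finset.sum_eq_single j (fun i _ hi => hz' i hi)
        (fun h5 => absurd (Finset.mem_univ _) h5)
      have hD : (∑ j : Fin n, if φ1 j e = 0 then 0 else 1) = if φ1 j e = 0 then 0 else 1 :=
        Finset.sum_eq_single j (fun i _ hi => by rw [hz' i hi, if_pos rfl])
        (fun h5 => absurd (Finset.mem_univ _) h5)
      rw [ha, hb, hSe, hD]
      have h7 : ∀ x : F2, 2 = (if 1 + x + 0 = 0 then 0 else 1) + (if 1 + x + 0 = 0 then 0 else 1) +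
        (if (0 : F2) + 0 = 0 then 0 else 1) + (if x = 0 then 0 else 1) +
        (if x = 0 then 0 else 1) := by decide
      exact h7 _
    · push Not at hj
      have hz' : ∀ i : Fin n, φ1 i e = 0 := fun i => hz _ (hj i)
      have hSe : S e = 0 := Finset.sum_eq_zero (fun i _ => hz' i)
      have hD : (∑ j : Fin n, if φ1 j e = 0 then 0 else 1) = 0 :=
        Finset.sum_eq_zero (fun i _ => by rw [hz' i, if_pos rfl])
      rw [hSe, hD]
      have hab : a e = 0 ∨ b e = 0 := by
        by_cases h5 : e ∈ R ⟨n, by omega⟩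
        · right
          apply hz
          intro h6
          have h7 := congrArg Fin.val (hRd _ _ e h5 h6)
          simp only at h7
          omega
        · left
          exact hz _ h5
      have h7 : ∀ x y : F2, x = 0 ∨ y = 0 → 2 = (if 1 + 0 + x = 0 then 0 else 1) +
        (if 1 + 0 + y = 0 then 0 else 1) + (if x + y = 0 then 0 else 1) + 0 + 0 := by decide
      exact h7 _ _ hab
  · obtain ⟨k, hk⟩ := hp e
    have hk2 : p e / 2 = k := by omega
    have hkn : k ≤ n := by
      rw [← hk2, hn]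
      exact Finset.le_sup (f := fun e => p e / 2) (Finset.mem_filter.2 ⟨Finset.mem_univ _, he⟩)
    have hval : ∀ j : Fin (n + 2), φ j e =
        if (if j.1 < n then j.1 < k else k % 2 = 1) then 1 else 0 := by
      intro j
      rw [hφe j e (fun h5 => he (hRL j e h5))]
      simp only [Finset.mem_filter, Finset.mem_univ, true_and, hk2]
      by_cases h5 : (if j.1 < n then j.1 < k else k % 2 = 1)
      · rw [if_pos h5, if_pos ⟨he, h5⟩]
      · rw [if_neg h5, if_neg (fun h6 => h5 h6.2)]
    have hval1 : ∀ j : Fin n, φ1 j e = if j.1 < k then 1 else 0 := by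
      intro j
      have h5 := hval (Fin.castAdd 2 j)
      simp only [Fin.val_castAdd, if_pos j.2] at h5
      exact h5
    have hD : (∑ j : Fin n, if φ1 j e = 0 then 0 else 1) = k := by
      have h5 : ∀ j : Fin n, (if φ1 j e = 0 then 0 else 1) = if j.1 < k then 1 else 0 := by
        intro j
        rw [hval1]
        by_cases h6 : j.1 < k
        · rw [if_pos h6, if_pos h6]; rfl
        · rw [if_neg h6, if_neg h6]; rfl
      rw [Finset.sum_congr rfl (fun j _ => h5 j), ← Finset.card_filter]
      exact count_lt n k hkn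
    have hSe : S e = (k : F2) := by
      show ∑ j, φ1 j e = (k : F2)
      rw [Finset.sum_congr rfl (fun j _ => hval1 j), Finset.sum_boole, count_lt n k hkn]
    have hae : a e = (k : F2) := by
      have h5 := hval ⟨n, by omega⟩
      simp only [lt_irrefl, if_false] at h5
      show φ ⟨n, _⟩ e = _
      rw [h5]
      rcases Nat.mod_two_eq_zero_or_one k with h6 | h6
      · rw [h6, if_neg (by norm_num)]
        exact ((ZMod.natCast_eq_zero_iff_even).2 (Nat.even_iff.2 h6)).symm
      · rw [h6, if_pos rfl]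
        have : ((k : ℕ) : F2) = ((1 : ℕ) : F2) := (ZMod.natCast_eq_natCast_iff' _ _ _).2 h6
        rw [this]; rfl
    have hbe : b e = (k : F2) := by
      have h5 := hval ⟨n + 1, by omega⟩
      have h6 : ¬ (n + 1 < n) := by omega
      simp only [h6, if_false] at h5
      show φ ⟨n + 1, _⟩ e = _
      rw [h5, ← hae]
      have h7 := hval ⟨n, by omega⟩
      simp only [lt_irrefl, if_false] at h7
      exact h7.symm
    rw [hD, hSe, hae, hbe, if_neg he]
    have h7 : ∀ x : F2, (if 0 + x + x = 0 then 0 else 1) = 0 ∧ (if x + x = 0 then 0 else 1) = 0 := by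
      decide
    rw [(h7 _).1, (h7 _).2]
    omega

/-- One level of heavy edges. -/
theorem one_level (G : MGraph V E) (μ N : ℕ) (hμ : 0 < μ) (T : Finset E) (w d : E → ℕ)
    (hd : ∀ e ∈ T, μ ∣ d e ∧ d e ≤ μ * N) (hw : ∀ e ∈ T, w e = 0)
    (hev : ∀ X : Finset V, Even (∑ f ∈ bd G X, w f))
    (hcut : ∀ X : Finset V, (∃ e ∈ bd G X, e ∈ T) → 4 * N ≤ ∑ f ∈ bd G X, w f) :
    ∃ c : E → ℕ, InIntCone G c ∧ (∀ e, μ ∣ c e) ∧ (∀ e ∈ T, c e = d e) ∧
      ∀ e, e ∉ T → c e ≤ μ * w e := by
  classical
  obtain ⟨v, hv⟩ := G.exists_halves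
  set src : E → V := fun e => v (e, false) with hsrc
  set dst : E → V := fun e => v (e, true) with hdst
  have hbd : ∀ X, bd G X = ecut src dst X := fun X => bd_eq G v hv X
  let P : V → V → Prop := fun a b => ∃ e, e ∈ T ∧ src e = a ∧ dst e = b
  obtain ⟨R, hRw, hRc⟩ := forest_weighted P N src dst w (by
      intro X
      rw [← hbd]
      exact hev X) (by
      intro X hX
      rw [← hbd]
      obtain ⟨a, b, ⟨e, he, rfl, rfl⟩, hab⟩ := hX
      exact hcut X ⟨e, by rw [hbd]; exact (mem_ecut _ _ _ _).2 hab, he⟩)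
  have hφ : ∀ j : Fin N, ∃ φ : E → F2, IsFlow src dst φ ∧ ∀ e, e ∉ R j →
      φ e = if e ∈ T.filter (fun e => j.1 < d e / μ) then 1 else 0 := by
    intro j
    apply flow_off src dst (R j) _ P
    · intro e he
      rw [Finset.mem_filter] at he
      exact ⟨e, he.1, rfl, rfl⟩
    · exact hRc j
  choose φ hφf hφe using hφ
  have hc1 : InIntCone G (fun e => ∑ j : Fin N, if φ j e = 0 then 0 else 1) :=
    intCone_sum G univ (fun (j : Fin N) e => if φ j e = 0 then 0 else 1)
      (fun j _ => circuits_of_flow G v hv (φ j) (hφf j))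
  have hc2 := intCone_sum G (Finset.range μ)
    (fun _ e => ∑ j : Fin N, if φ j e = 0 then 0 else 1) (fun _ _ => hc1)
  refine ⟨fun e => μ * ∑ j : Fin N, (if φ j e = 0 then 0 else 1), ?_, ?_, ?_, ?_⟩
  · refine intCone_add G hc2 (⟨0, by simp, fun e => by simp⟩ : InIntCone G (fun _ => 0)) ?_
    intro e
    rw [Finset.sum_const, Finset.card_range, smul_eq_mul, add_zero]
  · exact fun e => Dvd.intro _ rfl
  · intro e he
    have h3 : ∀ j : Fin N, (if φ j e = 0 then 0 else 1) = if j.1 < d e / μ then 1 else 0 := by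
      intro j
      have h4 : e ∉ R j := by
        intro h5
        have h6 := hRw e
        have h7 := hw e he
        have h8 : 0 < (univ.filter (fun j => e ∈ R j)).card :=
          Finset.card_pos.2 ⟨j, Finset.mem_filter.2 ⟨Finset.mem_univ _, h5⟩⟩
        omega
      by_cases h5 : j.1 < d e / μ
      · have h6 : φ j e = 1 := by rw [hφe j e h4, if_pos (Finset.mem_filter.2 ⟨he, h5⟩)]
        rw [h6, if_pos h5]
        rfl
      · have h6 : φ j e = 0 := by
          rw [hφe j e h4, if_neg (fun h6 : e ∈ T.filter (fun e => j.1 < d e / μ) =>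
            h5 (Finset.mem_filter.1 h6).2)]
        rw [h6, if_neg h5, if_pos rfl]
    show μ * ∑ j : Fin N, (if φ j e = 0 then 0 else 1) = d e
    rw [Finset.sum_congr rfl (fun j _ => h3 j), ← Finset.card_filter, count_lt]
    · exact Nat.mul_div_cancel' (hd e he).1
    · exact Nat.div_le_of_le_mul (hd e he).2
  · intro e he
    apply Nat.mul_le_mul_left
    have h3 : ∑ j : Fin N, (if φ j e = 0 then 0 else 1) ≤
        ∑ j : Fin N, (if e ∈ R j then 1 else 0) := by
      apply Finset.sum_le_sum
      intro j _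
      by_cases h4 : e ∈ R j
      · rw [if_pos h4]
        split_ifs <;> omega
      · have h6 : φ j e = 0 := by
          rw [hφe j e h4, if_neg (fun h5 => he (Finset.mem_filter.1 h5).1)]
        rw [h6, if_pos rfl]
        exact Nat.zero_le _
    rw [← Finset.card_filter (fun j => e ∈ R j)] at h3
    exact h3.trans (hRw e)

/-- Elimination of the levels, from the top. -/
theorem elim (G : MGraph V E) (μ : ℕ) (hμ : 0 < μ) (lev : E → ℕ) (w : ℕ → E → ℕ) (n : ℕ → ℕ)
    (hw0 : ∀ s f, s ≤ lev f → w s f = 0)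
    (hev : ∀ s, ∀ X : Finset V, Even (∑ f ∈ bd G X, w s f)) :
    ∀ (h : ℕ) (d : E → ℕ),
    (∀ e, 0 < lev e → lev e ≤ h → μ ∣ d e ∧ d e ≤ μ * n (lev e)) →
    (∀ f, 0 < lev f → lev f ≤ h → ∑ s ∈ Finset.range (h + 1), μ * w s f ≤ d f) →
    (∀ s, 0 < s → s ≤ h → ∀ X : Finset V, (∃ e ∈ bd G X, lev e = s) →
      4 * n s ≤ ∑ f ∈ bd G X, w s f) →
    ∃ c : E → ℕ, InIntCone G c ∧ (∀ e, μ ∣ c e) ∧ (∀ e, 0 < lev e → lev e ≤ h → c e = d e) ∧
      (∀ e, h < lev e → c e = 0) ∧
      ∀ e, lev e = 0 → c e ≤ ∑ s ∈ Finset.range (h + 1), μ * w s e := by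
  classical
  intro h
  induction h with
  | zero =>
    intro d _ _ _
    exact ⟨fun _ => 0, ⟨0, by simp, fun e => by simp⟩, fun e => dvd_zero _,
      fun e h1 h2 => by omega, fun e _ => rfl, fun e _ => Nat.zero_le _⟩
  | succ h ih =>
    intro d hd hs hc
    obtain ⟨c1, h1, h2, h3, h4⟩ := one_level G μ (n (h + 1)) hμ
      (univ.filter (fun e => lev e = h + 1)) (w (h + 1)) d (by
        intro e he
        rw [Finset.mem_filter] at he
        have := hd e (by omega) (by omega)
        rw [he.2] at this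
        exact this) (by
        intro e he
        rw [Finset.mem_filter] at he
        exact hw0 _ _ (by omega)) (hev (h + 1)) (by
        rintro X ⟨e, he, he'⟩
        rw [Finset.mem_filter] at he'
        exact hc (h + 1) (by omega) le_rfl X ⟨e, he, he'.2⟩)
    have h3' : ∀ e, lev e = h + 1 → c1 e = d e := fun e he =>
      h3 e (Finset.mem_filter.2 ⟨Finset.mem_univ _, he⟩)
    have h4' : ∀ e, lev e ≠ h + 1 → c1 e ≤ μ * w (h + 1) e := fun e he =>
      h4 e (fun h5 => he (Finset.mem_filter.1 h5).2)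
    have hle : ∀ f, 0 < lev f → lev f ≤ h →
        ∑ s ∈ Finset.range (h + 1), μ * w s f + c1 f ≤ d f := by
      intro f hf hf'
      have h5 := hs f hf (by omega)
      rw [Finset.sum_range_succ] at h5
      have h6 := h4' f (by omega)
      omega
    obtain ⟨c, g1, g2, g3, g4, g5⟩ := ih (fun e => d e - c1 e) (by
        intro e he he'
        have h5 := hd e he (by omega)
        exact ⟨Nat.dvd_sub h5.1 (h2 e), (Nat.sub_le _ _).trans h5.2⟩) (by
        intro f hf hf'
        have h5 := hle f hf hf'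
        show _ ≤ d f - c1 f
        omega) (fun s hs1 hs2 => hc s hs1 (by omega))
    refine ⟨fun e => c1 e + c e, intCone_add G h1 g1 (fun e => rfl),
      fun e => dvd_add (h2 e) (g2 e), ?_, ?_, ?_⟩
    · intro e he he'
      show c1 e + c e = d e
      by_cases h5 : lev e = h + 1
      · rw [h3' e h5, g4 e (by omega), add_zero]
      · rw [g3 e he (by omega)]
        have h6 := hle e he (by omega)
        omega
    · intro e he
      show c1 e + c e = 0
      rw [g4 e (by omega)]
      have h5 := h4' e (by omega)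
      rw [hw0 (h + 1) e (by omega)] at h5
      omega
    · intro e he
      show c1 e + c e ≤ _
      rw [Finset.sum_range_succ]
      have h5 := h4' e (by omega)
      have h6 := g5 e he
      omega

/-- All levels at once, in the form in which it is used. -/
theorem elim' (G : MGraph V E) (μ : ℕ) (hμ : 0 < μ) (h : ℕ) (t : E → ℕ) (lev : E → ℕ)
    (u : ℕ → E → ℕ)
    (p : E → ℕ) (hdiv : ∀ e, 0 < lev e → μ ∣ p e - t e)
    (hlev : ∀ e, lev e ≤ h) (hu0 : ∀ s f, s ≤ lev f → u s f = 0)
    (hudiv : ∀ s f, μ ∣ u s f)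
    (hheavy : ∀ e, 0 < lev e → t e + 2 * ∑ s ∈ Finset.range (h + 1), u s e ≤ p e)
    (hcut : ∀ X : Finset V, ∀ e ∈ bd G X, 0 < lev e → ∀ e', lev e' = lev e →
      2 * p e' ≤ 2 * t e' + ∑ f ∈ bd G X, u (lev e) f) :
    ∃ c : E → ℕ, InIntCone G c ∧ (∀ e, μ ∣ c e) ∧ (∀ e, 0 < lev e → c e = p e - t e) ∧
      ∀ e, lev e = 0 → c e ≤ 2 * ∑ s ∈ Finset.range (h + 1), u s e := by
  classical
  have hmul : ∀ s f, μ * (2 * (u s f / μ)) = 2 * u s f := by
    intro s f
    have := Nat.mul_div_cancel' (hudiv s f)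
    calc μ * (2 * (u s f / μ)) = 2 * (μ * (u s f / μ)) := by ring
      _ = _ := by rw [this]
  have hsum : ∀ f, ∑ s ∈ Finset.range (h + 1), μ * (2 * (u s f / μ)) =
      2 * ∑ s ∈ Finset.range (h + 1), u s f := by
    intro f
    rw [Finset.mul_sum]
    exact Finset.sum_congr rfl (fun s _ => hmul s f)
  obtain ⟨c, g1, g2, g3, g4, g5⟩ := elim G μ hμ lev (fun s f => 2 * (u s f / μ))
    (fun s => (univ.filter (fun e => lev e = s)).sup (fun e => (p e - t e) / μ)) (by
      intro s f hs
      show 2 * (u s f / μ) = 0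
      rw [hu0 s f hs]
      simp) (by
      intro s X
      rw [← Finset.mul_sum]
      exact even_two_mul _) h (fun e => p e - t e) (by
      intro e he _
      refine ⟨hdiv e he, ?_⟩
      have h1 : (p e - t e) / μ ≤ (univ.filter (fun e' => lev e' = lev e)).sup
          (fun e => (p e - t e) / μ) := by
        apply Finset.le_sup (f := fun e => (p e - t e) / μ)
        exact Finset.mem_filter.2 ⟨Finset.mem_univ _, rfl⟩
      calc p e - t e = μ * ((p e - t e) / μ) := (Nat.mul_div_cancel' (hdiv e he)).symm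
        _ ≤ _ := Nat.mul_le_mul_left _ h1) (by
      intro f hf _
      rw [hsum]
      have := hheavy f hf
      show _ ≤ p f - t f
      omega) (by
      rintro s hs _ X ⟨e, he, rfl⟩
      rw [← Finset.mul_sum]
      have h1 : (univ.filter (fun e' => lev e' = lev e)).sup (fun e => (p e - t e) / μ) ≤
          (∑ f ∈ bd G X, u (lev e) f / μ) / 2 := by
        apply Finset.sup_le
        intro e' he'
        rw [Finset.mem_filter] at he'
        have h2 := hcut X e he hs e' he'.2
        have h3 : ∑ f ∈ bd G X, u (lev e) f = μ * ∑ f ∈ bd G X, u (lev e) f / μ := by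
          rw [Finset.mul_sum]
          exact Finset.sum_congr rfl (fun f _ => (Nat.mul_div_cancel' (hudiv _ f)).symm)
        have h4 : μ * ((p e' - t e') / μ) = p e' - t e' :=
          Nat.mul_div_cancel' (hdiv e' (by rw [he'.2]; exact hs))
        have h5 : μ * (2 * ((p e' - t e') / μ)) ≤ μ * ∑ f ∈ bd G X, u (lev e) f / μ := by
          calc μ * (2 * ((p e' - t e') / μ)) = 2 * (μ * ((p e' - t e') / μ)) := by ring
            _ = 2 * (p e' - t e') := by rw [h4]
            _ ≤ _ := by rw [← h3]; omega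
        have h6 := Nat.le_of_mul_le_mul_left h5 hμ
        omega
      omega)
  refine ⟨c, g1, g2, fun e he => g3 e he (hlev e), fun e he => ?_⟩
  have := g5 e he
  rw [hsum] at this
  exact this

/-- Heavy edges above light edges which are nearly constant up to a combination of circuits of
bounded lengths. -/
theorem heavy_len (G : MGraph V E) (h : ℕ) (t lev : E → ℕ) (u : ℕ → E → ℕ) (p : E → ℕ)
    (hlev : ∀ e, lev e ≤ h) (hu0 : ∀ s f, s ≤ lev f → u s f = 0)
    (hheavy : ∀ e, 0 < lev e → t e + 2 * ∑ s ∈ Finset.range (h + 1), u s e ≤ p e)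
    (hcut : ∀ X : Finset V, ∀ e ∈ bd G X, 0 < lev e → ∀ e', lev e' = lev e →
      2 * p e' ≤ 2 * t e' + ∑ f ∈ bd G X, u (lev e) f)
    (hlat : InLat G p) (l : ℕ) (y : Finset E → ℝ) (m T : ℝ) (hy : ∀ C, 0 ≤ y C)
    (hy2 : ∀ C, y C ≠ 0 → G.IsCircuit C ∧ C.card ≤ l)
    (hmT : 7 * T + 16 * l + 91 ≤ 9 * m ∨
      (1 ≤ l ∧ 7 * T + 1200000000 * Pool.Agent.J4.H7.CC.bd l (Fintype.card E) ≤ 9 * m))
    (hl : ∀ e, lev e = 0 →
      m + 2 * ((∑ s ∈ Finset.range (h + 1), u s e : ℕ) : ℝ) +
          (∑ C : Finset E, if e ∈ C then y C else 0) ≤ p e ∧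
        (p e : ℝ) ≤ T + ∑ C : Finset E, if e ∈ C then y C else 0)
    (ht : ∀ e, 0 < lev e → m + (∑ C : Finset E, if e ∈ C then y C else 0) ≤ t e ∧
        (t e : ℝ) ≤ T + ∑ C : Finset E, if e ∈ C then y C else 0) :
    InIntCone G p := by
  classical
  obtain ⟨c, g1, -, g3, g5⟩ := elim' G 1 one_pos h t lev u p (fun e _ => one_dvd _) hlev hu0
    (fun s f => one_dvd _) hheavy hcut
  have hx : ∀ e, 0 ≤ ∑ C : Finset E, if e ∈ C then y C else 0 := by
    intro e
    apply Finset.sum_nonneg
    intro C _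
    split_ifs
    · exact hy C
    · exact le_rfl
  have key : ∀ e, c e ≤ p e ∧ m ≤ (p e : ℝ) - c e - (∑ C : Finset E, if e ∈ C then y C else 0) ∧
      (p e : ℝ) - c e - (∑ C : Finset E, if e ∈ C then y C else 0) ≤ T := by
    intro e
    rcases Nat.eq_zero_or_pos (lev e) with he | he
    · have h3 := g5 e he
      obtain ⟨h4, h5⟩ := hl e he
      have h6 : (c e : ℝ) ≤ 2 * ((∑ s ∈ Finset.range (h + 1), u s e : ℕ) : ℝ) := by
        exact_mod_cast h3
      have h7 : (0 : ℝ) ≤ c e := Nat.cast_nonneg _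
      have h8 := hx e
      have hm0 : 0 ≤ m := by
        have h9 : m ≤ T := by linarith
        rcases hmT with h10 | ⟨h10, h11⟩
        · have : (0 : ℝ) ≤ l := Nat.cast_nonneg l
          linarith
        · have := Pool.Agent.J4.H7.CC.one_le_bd l (Fintype.card E) h10
          linarith
      refine ⟨?_, by linarith, by linarith⟩
      have h9 : (c e : ℝ) ≤ p e := by linarith
      exact_mod_cast h9
    · have h3 := g3 e he
      have h4 := hheavy e he
      obtain ⟨h5, h6⟩ := ht e he
      have h7 : p e = t e + c e := by omega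
      have h8 : (p e : ℝ) = t e + c e := by exact_mod_cast h7
      refine ⟨by omega, by linarith, by linarith⟩
  have hcL := (cone_lat_of_intCone G c g1).2
  have hrL : InLat G (fun e => p e - c e) := by
    have h4 := AddSubgroup.sub_mem _ hlat hcL
    show (fun e => ((p e - c e : ℕ) : ℤ)) ∈ _
    have h5 : (fun e => ((p e - c e : ℕ) : ℤ)) =
        (fun e => ((p e : ℕ) : ℤ)) - (fun e => ((c e : ℕ) : ℤ)) := by
      funext e
      rw [Pi.sub_apply, Nat.cast_sub (key e).1]
    rw [h5]
    exact h4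
  have h4 : InIntCone G (fun e => p e - c e) := by
    apply Pool.Agent.J4.H7.CC.cover_len G _ hrL l
      (fun e => (p e : ℝ) - c e - (∑ C : Finset E, if e ∈ C then y C else 0)) y hy hy2
    · intro e
      rw [Nat.cast_sub (key e).1]
      ring
    · rcases hmT with h10 | ⟨h10, h11⟩
      · left
        intro e f
        have h12 := (key e).2.2
        have h13 := (key f).2.1
        linarith
      · right
        refine ⟨h10, fun e f => ?_⟩
        have h12 := (key e).2.2
        have h13 := (key f).2.1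
        linarith
  exact intCone_add G h4 g1 (fun e => by have := (key e).1; show p e = p e - c e + c e; omega)

theorem heavy_strong (G : MGraph V E) (h : ℕ) (lev : E → ℕ) (u : ℕ → E → ℕ) (p : E → ℕ)
    (hlev : ∀ e, lev e ≤ h) (hu0 : ∀ s f, s ≤ lev f → u s f = 0)
    (hheavy : ∀ e, 0 < lev e → 2 * ∑ s ∈ Finset.range (h + 1), u s e ≤ p e)
    (hcut : ∀ X : Finset V, ∀ e ∈ bd G X, 0 < lev e → ∀ e', lev e' = lev e →
      2 * p e' ≤ ∑ f ∈ bd G X, u (lev e) f)
    (hp : ∀ e, Even (p e)) (hu : ∀ s f, Even (u s f))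
    (hl : ∀ e, lev e = 0 → 2 * ∑ s ∈ Finset.range (h + 1), u s e ≤ p e ∧
      ∃ Y : Finset V, (∀ x ∈ G.ends e, x ∈ Y) ∧ ∀ X ⊆ Y, X.Nonempty → X ≠ Y →
        (∀ f ∈ Pool.Agent.H825R2.EW.cut G Y X, lev f = 0 →
          p f ≤ p e + 2 * ∑ s ∈ Finset.range (h + 1), u s f) →
        4 * p e + ∑ f ∈ (Pool.Agent.H825R2.EW.cut G Y X).filter (fun f => lev f = 0),
            2 * ∑ s ∈ Finset.range (h + 1), u s f ≤
          ∑ f ∈ (Pool.Agent.H825R2.EW.cut G Y X).filter (fun f => lev f = 0), p f) :
    InIntCone G p := by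
  classical
  obtain ⟨c, g1, g2, g3, g5⟩ := elim' G 2 two_pos h (fun _ => 0) lev u p (fun e _ => by
      rw [Nat.sub_zero]; exact (hp e).two_dvd) hlev hu0
    (fun s f => (hu s f).two_dvd) (fun e he => by rw [zero_add]; exact hheavy e he)
    (fun X e he he' e' h' => by rw [mul_zero, zero_add]; exact hcut X e he he' e' h')
  have key : ∀ e, c e ≤ p e ∧
      (lev e = 0 → p e ≤ (p e - c e) + 2 * ∑ s ∈ Finset.range (h + 1), u s e) ∧
      (0 < lev e → p e - c e = 0) := by
    intro e
    rcases Nat.eq_zero_or_pos (lev e) with he | he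
    · have h3 := g5 e he
      have h4 := (hl e he).1
      refine ⟨by omega, fun _ => by omega, fun h5 => by omega⟩
    · have h3 := g3 e he
      refine ⟨by omega, fun _ => by omega, fun h5 => by omega⟩
  have h4 : InIntCone G (fun e => p e - c e) := by
    apply Pool.Agent.H825R2.EW.cover_light G (fun e => p e - c e)
    · intro e
      exact (Nat.even_sub (key e).1).2 ⟨fun _ => (even_iff_two_dvd).2 (g2 e), fun _ => hp e⟩
    · intro e
      rcases Nat.eq_zero_or_pos (lev e) with he | he
      · obtain ⟨-, Y, hY, hX⟩ := hl e he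
        refine ⟨Y, hY, Or.inl ?_⟩
        intro X hXY hXn hXne hf
        have h5 := hX X hXY hXn hXne (fun f hf' hf0 => by
          have h6 := (key f).2.1 hf0
          have h7 : p f - c f ≤ p e - c e := hf f hf'
          omega)
        have h6 : ∑ f ∈ (Pool.Agent.H825R2.EW.cut G Y X).filter (fun f => lev f = 0), p f ≤
            ∑ f ∈ Pool.Agent.H825R2.EW.cut G Y X, (p f - c f) +
            ∑ f ∈ (Pool.Agent.H825R2.EW.cut G Y X).filter (fun f => lev f = 0),
              2 * ∑ s ∈ Finset.range (h + 1), u s f := by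
          calc _ ≤ ∑ f ∈ (Pool.Agent.H825R2.EW.cut G Y X).filter (fun f => lev f = 0),
                ((p f - c f) + 2 * ∑ s ∈ Finset.range (h + 1), u s f) := by
                apply Finset.sum_le_sum
                intro f hf'
                exact (key f).2.1 (Finset.mem_filter.1 hf').2
            _ = ∑ f ∈ (Pool.Agent.H825R2.EW.cut G Y X).filter (fun f => lev f = 0),
                (p f - c f) + _ := Finset.sum_add_distrib
            _ ≤ _ := Nat.add_le_add_right
                (Finset.sum_le_sum_of_subset (Finset.filter_subset _ _)) _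
        show 4 * (p e - c e) ≤ ∑ f ∈ Pool.Agent.H825R2.EW.cut G Y X, (p f - c f)
        omega
      · refine ⟨univ, fun _ _ => Finset.mem_univ _, Or.inl ?_⟩
        intro X _ _ _ _
        have h5 := (key e).2.2 he
        show 4 * (p e - c e) ≤ _
        rw [h5]
        simp
  exact intCone_add G h4 g1 (fun e => by have := (key e).1; show p e = p e - c e + c e; omega)

theorem heavy_two (G : MGraph V E) (h : ℕ) (lev : E → ℕ) (u : ℕ → E → ℕ) (p : E → ℕ)
    (hlev : ∀ e, lev e ≤ h) (hu0 : ∀ s f, s ≤ lev f → u s f = 0)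
    (hheavy : ∀ e, 0 < lev e → 2 * ∑ s ∈ Finset.range (h + 1), u s e ≤ p e)
    (hcut : ∀ X : Finset V, ∀ e ∈ bd G X, 0 < lev e → ∀ e', lev e' = lev e →
      2 * p e' ≤ ∑ f ∈ bd G X, u (lev e) f)
    (hp : ∀ e, Even (p e)) (hu : ∀ s f, 0 < lev f → Even (u s f))
    (hl : ∀ e, lev e = 0 → p e = 2 ∧ ∀ s, 1 < s → u s e = 0)
    (hdeg : ∀ x, Even (G.deg (univ.filter (fun e => lev e = 0)) x))
    (hone : ∀ X : Finset V, ∀ e ∈ bd G X, lev e = 1 → ∀ e', lev e' = 1 →
      2 * p e' + 8 ≤ ((bd G X).filter (fun f => lev f = 0)).card) :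
    InIntCone G p := by
  classical
  have hsum : ∀ e, ∑ s ∈ Finset.range (h + 1),
      (if s ≤ lev e - 1 ∨ h ≤ s then 0 else u (s + 1) e) ≤
      ∑ s ∈ Finset.range (h + 1), u s e := by
    intro e
    rw [Finset.sum_range_succ, Finset.sum_range_succ' (fun s => u s e), if_pos (Or.inr le_rfl),
      add_zero]
    refine le_trans (Finset.sum_le_sum (fun s _ => ?_)) (Nat.le_add_right _ _)
    split_ifs
    · exact Nat.zero_le _
    · exact le_rfl
  obtain ⟨c, g1, g2, g3, g5⟩ := elim' G 2 two_pos h (fun _ => 0) (fun e => lev e - 1)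
    (fun s f => if s ≤ lev f - 1 ∨ h ≤ s then 0 else u (s + 1) f) p (fun e _ => by
      rw [Nat.sub_zero]; exact (hp e).two_dvd)
    (fun e => by have := hlev e; show lev e - 1 ≤ h; omega)
    (fun s f hs => if_pos (Or.inl hs))
    (fun s f => by
      split_ifs with h1
      · exact dvd_zero _
      · rcases Nat.eq_zero_or_pos (lev f) with h2 | h2
        · rw [(hl f h2).2 (s + 1) (by omega)]
          exact dvd_zero _
        · exact (hu (s + 1) f h2).two_dvd)
    (fun e he => by
      have he' : 0 < lev e - 1 := he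
      rw [zero_add]
      exact le_trans (Nat.mul_le_mul_left _ (hsum e)) (hheavy e (by omega)))
    (fun X e he he' e' h' => by
      have he2 : 0 < lev e - 1 := he'
      have h2 : lev e' - 1 = lev e - 1 := h'
      rw [mul_zero, zero_add]
      refine le_trans (hcut X e he (by omega) e' (by omega)) ?_
      apply Finset.sum_le_sum
      intro f _
      have h1 : lev e - 1 + 1 = lev e := by omega
      have h3 := hlev e
      show u (lev e) f ≤ if lev e - 1 ≤ lev f - 1 ∨ h ≤ lev e - 1 then 0 else u (lev e - 1 + 1) f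
      rw [h1]
      split_ifs with h2
      · rw [hu0 (lev e) f (by omega)]
      · exact le_rfl)
  have k0 : ∀ e, lev e = 0 → c e = 0 := by
    intro e he
    have h3 := g5 e (show lev e - 1 = 0 by omega)
    have h4 : ∑ s ∈ Finset.range (h + 1), (if s ≤ lev e - 1 ∨ h ≤ s then 0 else u (s + 1) e) =
        0 := by
      apply Finset.sum_eq_zero
      intro s _
      split_ifs with h5
      · rfl
      · exact (hl e he).2 (s + 1) (by omega)
    have h5 : c e ≤ 2 * ∑ s ∈ Finset.range (h + 1),
        (if s ≤ lev e - 1 ∨ h ≤ s then 0 else u (s + 1) e) := h3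
    omega
  have k1 : ∀ e, lev e = 1 → c e ≤ p e := by
    intro e he
    have h3 : c e ≤ 2 * ∑ s ∈ Finset.range (h + 1),
        (if s ≤ lev e - 1 ∨ h ≤ s then 0 else u (s + 1) e) :=
      g5 e (show lev e - 1 = 0 by omega)
    have h4 := hsum e
    have h5 := hheavy e (by omega)
    omega
  have k2 : ∀ e, 1 < lev e → c e = p e := by
    intro e he
    have h3 := g3 e (show 0 < lev e - 1 by omega)
    rw [Nat.sub_zero] at h3
    exact h3
  have hcp : ∀ e, c e ≤ p e := by
    intro e
    rcases Nat.lt_trichotomy (lev e) 1 with h3 | h3 | h3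
    · rw [k0 e (by omega)]
      exact Nat.zero_le _
    · exact k1 e h3
    · exact (k2 e h3).le
  have h4 : InIntCone G (fun e => p e - c e) := by
    apply part_one G (univ.filter (fun e => lev e = 0)) _ hdeg
    · intro e he
      have he' := (Finset.mem_filter.1 he).2
      show p e - c e = 2
      rw [k0 e he', (hl e he').1]
    · intro e
      exact (Nat.even_sub (hcp e)).2 ⟨fun _ => (even_iff_two_dvd).2 (g2 e), fun _ => hp e⟩
    · intro X e he heL hpe e' heL'
      have h5 : lev e ≠ 0 := fun h6 => heL (Finset.mem_filter.2 ⟨Finset.mem_univ _, h6⟩)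
      have h5' : lev e' ≠ 0 := fun h6 => heL' (Finset.mem_filter.2 ⟨Finset.mem_univ _, h6⟩)
      have h6 : lev e = 1 := by
        by_contra h7
        have h8 := k2 e (by omega)
        have h9 : 0 < p e - c e := hpe
        omega
      have h7 : bd G X ∩ univ.filter (fun e => lev e = 0) =
          (bd G X).filter (fun f => lev f = 0) := by
        ext f
        simp
      rw [h7]
      show 2 * (p e' - c e') + 8 ≤ _
      by_cases h8 : lev e' = 1
      · have h9 := hone X e he h6 e' h8
        omega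
      · have h9 := hone X e he h6 e h6
        have h10 := k2 e' (by omega)
        omega
  exact intCone_add G h4 g1 (fun e => by have := hcp e; show p e = p e - c e + c e; omega)

theorem heavy (G : MGraph V E) (p t : E → ℕ) (h : ℕ) (lev : E → ℕ) (w : ℕ → E → ℕ)
    (hlev : ∀ e, lev e ≤ h) (hw : ∀ s f, s ≤ lev f → w s f = 0)
    (hheavy : ∀ e, 0 < lev e → t e + 2 * tot h w e ≤ p e)
    (hcut : ∀ X : Finset V, ∀ e ∈ bd G X, 0 < lev e → ∀ e', lev e' = lev e →
      2 * p e' ≤ 2 * t e' + ∑ f ∈ bd G X, w (lev e) f)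
    (hbase :
      (InLat G p ∧ ∃ (l : ℕ) (y : Finset E → ℝ) (m T : ℝ), (∀ C, 0 ≤ y C) ∧
        (∀ C, y C ≠ 0 → G.IsCircuit C ∧ C.card ≤ l) ∧
        (7 * T + 16 * l + 91 ≤ 9 * m ∨
          (1 ≤ l ∧ 7 * T + 1200000000 * depth l (Fintype.card E) ≤ 9 * m)) ∧
        (∀ e, lev e = 0 → m + 2 * (tot h w e : ℝ) + load y e ≤ p e ∧
          (p e : ℝ) ≤ T + load y e) ∧
        ∀ e, 0 < lev e → m + load y e ≤ t e ∧ (t e : ℝ) ≤ T + load y e) ∨
      ((∀ e, t e = 0) ∧ (∀ e, Even (p e)) ∧ (∀ s f, Even (w s f)) ∧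
        ∀ e, lev e = 0 → 2 * tot h w e ≤ p e ∧
          ∃ Y : Finset V, (∀ x ∈ G.ends e, x ∈ Y) ∧ ∀ X ⊆ Y, X.Nonempty → X ≠ Y →
            (∀ f ∈ Pool.Agent.H825R2.EW.cut G Y X, lev f = 0 → p f - 2 * tot h w f ≤ p e) →
            4 * p e ≤ ∑ f ∈ (Pool.Agent.H825R2.EW.cut G Y X).filter (fun f => lev f = 0),
              (p f - 2 * tot h w f)) ∨
      ((∀ e, t e = 0) ∧ (∀ e, Even (p e)) ∧ (∀ s f, 0 < lev f → Even (w s f)) ∧
        (∀ e, lev e = 0 → p e = 2 ∧ ∀ s, 1 < s → w s e = 0) ∧
        (∀ x, Even (G.deg (univ.filter (fun e => lev e = 0)) x)) ∧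
        ∀ X : Finset V, ∀ e ∈ bd G X, lev e = 1 → ∀ e', lev e' = 1 →
          2 * p e' + 8 ≤ ((bd G X).filter (fun f => lev f = 0)).card)) :
    InIntCone G p := by
  unfold tot at hheavy hbase
  rcases hbase with ⟨h1, l, y, m, T, hy, hy2, hmT, hl, ht⟩ | ⟨h0, hp, hu, hl⟩ |
    ⟨h0, hp, hu, hl, hdeg, hone⟩
  · exact heavy_len G h t lev w p hlev hw hheavy hcut h1 l y m T hy hy2 hmT hl ht
  · refine heavy_strong G h lev w p hlev hw (fun e he => by
      have := hheavy e he; rwa [h0, zero_add] at this) (fun X e he he' e' h' => by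
      have := hcut X e he he' e' h'; rwa [h0, mul_zero, zero_add] at this) hp hu ?_
    intro e he
    obtain ⟨h1, Y, hY, hX⟩ := hl e he
    refine ⟨h1, Y, hY, fun X hXY hXn hXne hf => ?_⟩
    have h2 := hX X hXY hXn hXne (fun f hf' hf0 => by
      have := hf f hf' hf0
      omega)
    have h3 : ∑ f ∈ (Pool.Agent.H825R2.EW.cut G Y X).filter (fun f => lev f = 0), p f =
        ∑ f ∈ (Pool.Agent.H825R2.EW.cut G Y X).filter (fun f => lev f = 0),
          (p f - 2 * ∑ s ∈ Finset.range (h + 1), w s f) +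
        ∑ f ∈ (Pool.Agent.H825R2.EW.cut G Y X).filter (fun f => lev f = 0),
          2 * ∑ s ∈ Finset.range (h + 1), w s f := by
      rw [← Finset.sum_add_distrib]
      apply Finset.sum_congr rfl
      intro f hf'
      have h4 := (hl f (Finset.mem_filter.1 hf').2).1
      omega
    omega
  · exact heavy_two G h lev w p hlev hw (fun e he => by
      have := hheavy e he; rwa [h0, zero_add] at this) (fun X e he he' e' h' => by
      have := hcut X e he he' e' h'; rwa [h0, mul_zero, zero_add] at this) hp hu hl hdeg hone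

end Pool.Agent.J4.H47.HE
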