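import Pool.Agent.J4.H47.HE.Pack

set_option autoImplicit false
set_option linter.unusedSectionVars false
set_option linter.unusedVariables false

/-!
Edge-disjoint forests which connect given pairs of vertices, in a graph all of whose cuts are even.
-/

namespace Pool.Agent.J4.H47.HE

open Finset
open Pool.Agent.H239R2.Cover (ecut mem_ecut)
open Pool.Agent.H185F (ecut_compl ecut_submod ecut_posimod ecut_insert t3_card)

variable {V E : Type} [Fintype V] [DecidableEq V] [Fintype E] [DecidableEq E]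

/-- `X` separates two vertices which form a pair. -/
def Sep (P : V → V → Prop) (X : Finset V) : Prop := ∃ s t, P s t ∧ ¬ (s ∈ X ↔ t ∈ X)

lemma sep_compl {P : V → V → Prop} {X : Finset V} (h : Sep P X) : Sep P Xᶜ := by
  obtain ⟨s, t, h1, h2⟩ := h
  refine ⟨s, t, h1, ?_⟩
  rw [Finset.mem_compl, Finset.mem_compl]
  tauto

lemma bool_case : ∀ sx sy tx ty cx cy dx dy : Bool, sx ≠ tx → cy ≠ dy →
    (((sx && sy) ≠ (tx && ty) ∨ (cx && cy) ≠ (dx && dy)) ∧
      ((sx || sy) ≠ (tx || ty) ∨ (cx || cy) ≠ (dx || dy))) ∨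
    (((sx && !sy) ≠ (tx && !ty) ∨ (cx && !cy) ≠ (dx && !dy)) ∧
      ((sy && !sx) ≠ (ty && !tx) ∨ (cy && !cx) ≠ (dy && !dx))) := by decide

lemma sep_cases (P : V → V → Prop) (X Y : Finset V) (hX : Sep P X) (hY : Sep P Y) :
    (Sep P (X ∩ Y) ∧ Sep P (X ∪ Y)) ∨ (Sep P (X \ Y) ∧ Sep P (Y \ X)) := by
  obtain ⟨s, t, hst, h1⟩ := hX
  obtain ⟨c, d, hcd, h2⟩ := hY
  have key := bool_case (decide (s ∈ X)) (decide (s ∈ Y)) (decide (t ∈ X)) (decide (t ∈ Y))
    (decide (c ∈ X)) (decide (c ∈ Y)) (decide (d ∈ X)) (decide (d ∈ Y))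
    (by intro h; exact h1 (by simpa using h)) (by intro h; exact h2 (by simpa using h))
  have conv : ∀ (Z : Finset V) (u v : V), P u v → decide (u ∈ Z) ≠ decide (v ∈ Z) → Sep P Z := by
    intro Z u v huv h
    exact ⟨u, v, huv, fun h' => h (by simpa using h')⟩
  have e1 : ∀ u : V, (decide (u ∈ X) && decide (u ∈ Y)) = decide (u ∈ X ∩ Y) := by
    intro u; rw [← Bool.decide_and]; simp
  have e2 : ∀ u : V, (decide (u ∈ X) || decide (u ∈ Y)) = decide (u ∈ X ∪ Y) := by
    intro u; rw [← Bool.decide_or]; simp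
  have e3 : ∀ u : V, (decide (u ∈ X) && !decide (u ∈ Y)) = decide (u ∈ X \ Y) := by
    intro u; by_cases h : u ∈ X <;> by_cases h' : u ∈ Y <;> simp [h, h']
  have e4 : ∀ u : V, (decide (u ∈ Y) && !decide (u ∈ X)) = decide (u ∈ Y \ X) := by
    intro u; by_cases h : u ∈ X <;> by_cases h' : u ∈ Y <;> simp [h, h']
  rw [e1, e1, e1, e1, e2, e2, e2, e2, e3, e3, e3, e3, e4, e4, e4, e4] at key
  rcases key with ⟨h3, h4⟩ | ⟨h3, h4⟩
  · left
    exact ⟨h3.elim (conv _ s t hst) (conv _ c d hcd), h4.elim (conv _ s t hst) (conv _ c d hcd)⟩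
  · right
    exact ⟨h3.elim (conv _ s t hst) (conv _ c d hcd), h4.elim (conv _ s t hst) (conv _ c d hcd)⟩

theorem union_tight' (P : V → V → Prop) (n : ℕ) (src dst : E → V)
    (hc : ∀ X, Sep P X → n ≤ (ecut src dst X).card) (e : E) (X Y : Finset V)
    (he : (src e ∈ X ∩ Y ∧ dst e ∉ X ∪ Y) ∨ (dst e ∈ X ∩ Y ∧ src e ∉ X ∪ Y))
    (hX : Sep P X) (hY : Sep P Y) (hX' : (ecut src dst X).card = n)
    (hY' : (ecut src dst Y).card = n) :
    Sep P (X ∪ Y) ∧ (ecut src dst (X ∪ Y)).card = n := by
  have h1 := ecut_posimod src dst X Y e he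
  have h2 := ecut_submod src dst X Y
  rcases sep_cases P X Y hX hY with ⟨h3, h4⟩ | ⟨h3, h4⟩
  · have h5 := hc _ h3
    have h6 := hc _ h4
    exact ⟨h4, by omega⟩
  · have h5 := hc _ h3
    have h6 := hc _ h4
    omega

theorem exists_admissible' (P : V → V → Prop) (N : ℕ) (src dst : E → V)
    (hev : ∀ X, Even (ecut src dst X).card)
    (hc : ∀ X, Sep P X → 2 * N ≤ (ecut src dst X).card) (y a : V) (hyA : ∀ s t, P s t → s ≠ y ∧ t ≠ y) (hay : a ≠ y)
    (e : E) (he : Joins src dst e y a) :
    ∃ f b, e ≠ f ∧ b ≠ y ∧ Joins src dst f y b ∧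
      ∀ X, Sep P X → 2 * N ≤ (ecut (newEnd src e f y a) (newEnd dst e f y b) X).card := by
  classical
  -- it is enough to consider the sets without `y`
  have red : ∀ f b, e ≠ f → Joins src dst f y b →
      (∀ X, Sep P X → y ∉ X → a ∈ X → b ∈ X → (ecut src dst X).card ≠ 2 * N) →
      ∀ X, Sep P X → 2 * N ≤ (ecut (newEnd src e f y a) (newEnd dst e f y b) X).card := by
    intro f b hef hf h
    have main : ∀ X, Sep P X → y ∉ X →
        2 * N ≤ (ecut (newEnd src e f y a) (newEnd dst e f y b) X).card := by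
      intro X hX hy
      have h1 := cut_split src dst e f hef y a b he hf X hy
      have h2 := hc X hX
      split_ifs at h1 with h3
      · have h4 := h X hX hy h3.1 h3.2
        obtain ⟨k, hk⟩ := hev X
        omega
      · omega
    intro X hX
    by_cases hy : y ∈ X
    · rw [← ecut_compl]
      exact main _ (sep_compl hX) (by simpa using hy)
    · exact main X hX hy
  set T : Finset (Finset V) := univ.filter (fun X => a ∈ X ∧ y ∉ X ∧ Sep P X ∧
    (ecut src dst X).card = 2 * N) with hT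
  have hmem : ∀ X, X ∈ T ↔ (a ∈ X ∧ y ∉ X ∧ Sep P X ∧ (ecut src dst X).card = 2 * N) := by
    intro X
    rw [hT, Finset.mem_filter]
    simp
  have hecut : e ∈ ecut src dst {y} := cut_of_joins src dst y a e hay he
  by_cases hTe : T.Nonempty
  · obtain ⟨Z, hZ, hZmax⟩ := Finset.exists_max_image T Finset.card hTe
    obtain ⟨hZa, hZy, hZs, hZc⟩ := (hmem Z).1 hZ
    -- an edge from `y` to the outside of `Z`
    have hex : ∃ f ∈ ecut src dst {y}, ¬ ((src f = y → dst f ∈ Z) ∧ (dst f = y → src f ∈ Z)) := by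
      by_contra hno
      push Not at hno
      have h1 := ecut_insert src dst Z y hZy (fun f hf => hno f hf)
      have h2 : Sep P (insert y Z) := by
        obtain ⟨u, w, huw, hu'⟩ := hZs
        obtain ⟨h5, h6⟩ := hyA u w huw
        refine ⟨u, w, huw, ?_⟩
        rw [Finset.mem_insert, Finset.mem_insert]
        tauto
      have h3 := hc _ h2
      have h4 : 0 < (ecut src dst {y}).card := Finset.card_pos.2 ⟨e, hecut⟩
      omega
    obtain ⟨f, hf, hfZ⟩ := hex
    obtain ⟨b, hby, hb⟩ := joins_of_cut src dst y f hf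
    have hbZ : b ∉ Z := by
      intro h
      apply hfZ
      rcases hb with ⟨h1, h2⟩ | ⟨h1, h2⟩
      · exact ⟨fun _ => h2 ▸ h, fun h3 => absurd (h2.symm.trans h3) hby⟩
      · exact ⟨fun h3 => absurd (h1.symm.trans h3) hby, fun _ => h1 ▸ h⟩
    have hef : e ≠ f := by
      rintro rfl
      apply hbZ
      rcases he with ⟨h1, h2⟩ | ⟨h1, h2⟩ <;> rcases hb with ⟨h3, h4⟩ | ⟨h3, h4⟩
      · rw [← h4, h2]; exact hZa
      · exact absurd (h3.symm.trans h1) hby
      · exact absurd (h4.symm.trans h2) hby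
      · rw [← h3, h1]; exact hZa
    refine ⟨f, b, hef, hby, hb, red f b hef hb ?_⟩
    intro X hX hyX haX hbX hcard
    have hU := union_tight' P (2 * N) src dst hc e X Z (by
      rcases he with ⟨h1, h2⟩ | ⟨h1, h2⟩
      · right
        rw [h1, h2, Finset.mem_inter, Finset.mem_union]
        exact ⟨⟨haX, hZa⟩, by tauto⟩
      · left
        rw [h1, h2, Finset.mem_inter, Finset.mem_union]
        exact ⟨⟨haX, hZa⟩, by tauto⟩) hX hZs hcard hZc
    have h1 : X ∪ Z ∈ T := (hmem _).2 ⟨Finset.mem_union_left _ haX, by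
      rw [Finset.mem_union]; tauto, hU.1, hU.2⟩
    have h2 := hZmax _ h1
    have h3 : Z = X ∪ Z := Finset.eq_of_subset_of_card_le Finset.subset_union_right h2
    apply hbZ
    rw [h3]
    exact Finset.mem_union_left _ hbX
  · rw [Finset.not_nonempty_iff_eq_empty] at hTe
    have hex : ∃ f ∈ ecut src dst {y}, e ≠ f := by
      by_contra hno
      push Not at hno
      have h1 : ecut src dst {y} = {e} := by
        ext g
        rw [Finset.mem_singleton]
        exact ⟨fun h => (hno g h).symm, fun h => h ▸ hecut⟩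
      have h2 := hev {y}
      rw [h1, Finset.card_singleton] at h2
      exact absurd h2 (by decide)
    obtain ⟨f, hf, hef⟩ := hex
    obtain ⟨b, hby, hb⟩ := joins_of_cut src dst y f hf
    refine ⟨f, b, hef, hby, hb, red f b hef hb ?_⟩
    intro X hX hyX haX hbX hcard
    have : X ∈ T := (hmem _).2 ⟨haX, hyX, hX, hcard⟩
    rw [hTe] at this
    exact absurd this (Finset.notMem_empty _)

/-- Forests connecting the pairs. -/
def HasForest (P : V → V → Prop) (N : ℕ) (src dst : E → V) : Prop :=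
  ∃ R : Fin N → Finset E, (∀ i j, i ≠ j → Disjoint (R i) (R j)) ∧
    ∀ j X, Sep P X → ∃ g ∈ R j, g ∈ ecut src dst X

theorem lift_conn' (P : V → V → Prop) (N : ℕ) (src dst : E → V) (e f : E) (hef : e ≠ f) (y a b : V)
    (he : Joins src dst e y a) (hf : Joins src dst f y b)
    (h : HasForest P N (newEnd src e f y a) (newEnd dst e f y b)) : HasForest P N src dst := by
  classical
  obtain ⟨R, hd, hR⟩ := h
  refine ⟨fun j => if e ∈ R j then insert f (R j) else (R j).erase f, ?_, ?_⟩
  · intro i j hij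
    have h1 := Finset.disjoint_left.1 (hd i j hij)
    rw [Finset.disjoint_left]
    intro g hg hg'
    by_cases hei : e ∈ R i
    · have hej : e ∉ R j := h1 hei
      simp only [if_pos hei, if_neg hej, Finset.mem_insert, Finset.mem_erase] at hg hg'
      rcases hg with rfl | hg
      · exact hg'.1 rfl
      · exact h1 hg hg'.2
    · by_cases hej : e ∈ R j
      · simp only [if_neg hei, if_pos hej, Finset.mem_insert, Finset.mem_erase] at hg hg'
        rcases hg' with rfl | hg'
        · exact hg.1 rfl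
        · exact h1 hg.2 hg'
      · simp only [if_neg hei, if_neg hej, Finset.mem_erase] at hg hg'
        exact h1 hg.2 hg'.2
  · intro j X hX
    obtain ⟨g, hg, hgX⟩ := hR j X hX
    rw [mem_ecut] at hgX
    by_cases hgf : g = f
    · subst hgf
      rw [newEnd_f, newEnd_f] at hgX
      exact absurd Iff.rfl hgX
    · by_cases hge : g = e
      · subst hge
        rw [newEnd_e src g f hef, newEnd_e dst g f hef] at hgX
        have h2 : (g ∈ ecut src dst X) ∨ f ∈ ecut src dst X := by
          rw [mem_ecut, mem_ecut]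
          rcases he with ⟨h1, h2⟩ | ⟨h1, h2⟩ <;> rcases hf with ⟨h3, h4⟩ | ⟨h3, h4⟩ <;>
            rw [h1, h2, h3, h4] <;> tauto
        simp only [if_pos hg]
        rcases h2 with h2 | h2
        · exact ⟨g, Finset.mem_insert_of_mem hg, h2⟩
        · exact ⟨f, Finset.mem_insert_self _ _, h2⟩
      · rw [newEnd_g src e f y a g hge hgf, newEnd_g dst e f y b g hge hgf] at hgX
        refine ⟨g, ?_, (mem_ecut _ _ _ _).2 hgX⟩
        by_cases hej : e ∈ R j
        · simp only [if_pos hej]
          exact Finset.mem_insert_of_mem hg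
        · simp only [if_neg hej]
          exact Finset.mem_erase.2 ⟨hgf, hg⟩

/-- The number of the edges which are not loops. -/
def nlp (src dst : E → V) : ℕ := (univ.filter (fun g => src g ≠ dst g)).card

theorem nlp_split (src dst : E → V) (e f : E) (hef : e ≠ f) (y a b : V)
    (hay : a ≠ y) (hby : b ≠ y)
    (he : Joins src dst e y a) (hf : Joins src dst f y b) :
    nlp (newEnd src e f y a) (newEnd dst e f y b) < nlp src dst := by
  unfold nlp
  apply Finset.card_lt_card
  rw [Finset.ssubset_iff_of_subset]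
  · refine ⟨f, ?_, ?_⟩
    · rw [Finset.mem_filter]
      refine ⟨Finset.mem_univ _, ?_⟩
      rcases hf with ⟨h1, h2⟩ | ⟨h1, h2⟩ <;> rw [h1, h2]
      · exact hby.symm
      · exact hby
    · rw [Finset.mem_filter, newEnd_f, newEnd_f]
      exact fun h => h.2 rfl
  · intro g hg
    rw [Finset.mem_filter] at hg ⊢
    refine ⟨Finset.mem_univ _, ?_⟩
    by_cases h1 : g = f
    · rw [h1, newEnd_f, newEnd_f] at hg
      exact absurd rfl hg.2
    · by_cases h2 : g = e
      · rw [h2]
        rcases he with ⟨h3, h4⟩ | ⟨h3, h4⟩ <;> rw [h3, h4]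
        · exact hay.symm
        · exact hay
      · rw [newEnd_g src e f y a g h2 h1, newEnd_g dst e f y b g h2 h1] at hg
        exact hg.2

end Pool.Agent.J4.H47.HE
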