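import Pool.Agent.J4.H47.HE.Forest

set_option autoImplicit false
set_option linter.unusedSectionVars false
set_option linter.unusedVariables false

/-!
Edge-disjoint forests which connect given pairs of vertices: blocks and the main theorem.
-/

namespace Pool.Agent.J4.H47.HE

open Finset
open Pool.Agent.H239R2.Cover (ecut mem_ecut)
open Pool.Agent.H185F (ecut_compl ecut_submod)

variable {V E : Type} [Fintype V] [DecidableEq V] [Fintype E] [DecidableEq E]

/-- A smallest cut between two vertices. -/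
theorem exists_min_cut (src dst : E → V) (a b : V) (X : Finset V) (ha : a ∈ X) (hb : b ∉ X) :
    ∃ Y : Finset V, a ∈ Y ∧ b ∉ Y ∧ (ecut src dst Y).card ≤ (ecut src dst X).card ∧
      ∀ Z, a ∈ Z → b ∉ Z → (ecut src dst Y).card ≤ (ecut src dst Z).card := by
  classical
  obtain ⟨Y, hY, hmin⟩ := Finset.exists_min_image
    (univ.filter (fun Z : Finset V => a ∈ Z ∧ b ∉ Z)) (fun Z => (ecut src dst Z).card)
    ⟨X, by simp [ha, hb]⟩
  rw [Finset.mem_filter] at hY
  refine ⟨Y, hY.2.1, hY.2.2, hmin X (by simp [ha, hb]), fun Z h1 h2 => hmin Z (by simp [h1, h2])⟩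

/-- A set of terminals with a small boundary inside of which all cuts are large. -/
theorem exists_block (P : V → V → Prop) (n : ℕ) (src dst : E → V) (Tm : Finset V)
    (hTm : ∀ v, v ∈ Tm ↔ ∃ u, P v u ∨ P u v)
    (hirr : ∀ s t, P s t → s ≠ t)
    (hc : ∀ X, Sep P X → n ≤ (ecut src dst X).card)
    (hP : ∃ s t, P s t)
    (hall : ∀ g, src g ≠ dst g → src g ∈ Tm ∧ dst g ∈ Tm) :
    ∃ A : Finset V, (∃ a ∈ A, ∃ b ∈ A, a ≠ b) ∧ (ecut src dst A).card ≤ n ∧
      ∀ X, Splits A X → n ≤ (ecut src dst X).card := by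
  classical
  set S : Finset (Finset V) := univ.filter (fun X => (ecut src dst X).card < n ∧
    ∃ u ∈ Tm, u ∈ X ∧ ∃ v ∈ Tm, v ∉ X ∧ ∀ Z, u ∈ Z → v ∉ Z →
      (ecut src dst X).card ≤ (ecut src dst Z).card) with hS
  have hmem : ∀ X, X ∈ S ↔ ((ecut src dst X).card < n ∧
    ∃ u ∈ Tm, u ∈ X ∧ ∃ v ∈ Tm, v ∉ X ∧ ∀ Z, u ∈ Z → v ∉ Z →
      (ecut src dst X).card ≤ (ecut src dst Z).card) := by
    intro X; rw [hS, Finset.mem_filter]; simp only [Finset.mem_univ, true_and]
  by_cases hne : S.Nonempty
  · obtain ⟨X, hX, hmin⟩ := Finset.exists_min_image S Finset.card hne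
    obtain ⟨hXn, u, huT, huX, v, hvT, hvX, hXmin⟩ := (hmem X).1 hX
    refine ⟨X ∩ Tm, ?_, ?_, ?_⟩
    · obtain ⟨w, hw⟩ := (hTm u).1 huT
      have hwX : w ∈ X := by
        by_contra hwX
        have : Sep P X := by
          rcases hw with hw | hw
          · exact ⟨u, w, hw, by tauto⟩
          · exact ⟨w, u, hw, by tauto⟩
        have := hc X this
        omega
      refine ⟨u, Finset.mem_inter.2 ⟨huX, huT⟩, w,
        Finset.mem_inter.2 ⟨hwX, (hTm w).2 ⟨u, hw.symm⟩⟩, ?_⟩
      rcases hw with hw | hw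
      · exact hirr _ _ hw
      · exact (hirr _ _ hw).symm
    · have : ecut src dst (X ∩ Tm) ⊆ ecut src dst X := by
        intro g hg
        rw [mem_ecut] at hg ⊢
        rw [Finset.mem_inter, Finset.mem_inter] at hg
        have h1 : src g ≠ dst g := fun h => hg (by rw [h])
        have h2 := hall g h1
        tauto
      have := Finset.card_le_card this
      omega
    · intro Y hY
      by_contra hlt
      push Not at hlt
      obtain ⟨⟨a, ha, haY⟩, b, hb, hbY⟩ := hY
      obtain ⟨Y0, ha0, hb0, hle, hmin0⟩ := exists_min_cut src dst a b Y haY hbY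
      obtain ⟨a1, b1, Y1, ha1, hb1, haY1, hbY1, hvY1, hlt1, hmin1⟩ : ∃ a1 b1 : V,
          ∃ Y1 : Finset V, a1 ∈ X ∩ Tm ∧ b1 ∈ X ∩ Tm ∧ a1 ∈ Y1 ∧ b1 ∉ Y1 ∧ v ∉ Y1 ∧
            (ecut src dst Y1).card < n ∧
            ∀ Z, a1 ∈ Z → b1 ∉ Z → (ecut src dst Y1).card ≤ (ecut src dst Z).card := by
        by_cases hv : v ∈ Y0
        · refine ⟨b, a, Y0ᶜ, hb, ha, by simpa using hb0, by simpa using ha0, by simpa using hv,
            ?_, ?_⟩
          · rw [ecut_compl]; omega
          · intro Z hZ1 hZ2
            have := hmin0 Zᶜ (by simpa using hZ2) (by simpa using hZ1)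
            rw [ecut_compl] at this ⊢
            exact this
        · exact ⟨a, b, Y0, ha, hb, ha0, hb0, hv, by omega, hmin0⟩
      rw [Finset.mem_inter] at ha1 hb1
      have h1 := hXmin (X ∪ Y1) (Finset.mem_union_left _ huX) (by rw [Finset.mem_union]; tauto)
      have h2 := ecut_submod src dst X Y1
      have h3 : X ∩ Y1 ∈ S := (hmem _).2 ⟨by omega, a1, ha1.2,
        Finset.mem_inter.2 ⟨ha1.1, haY1⟩, b1, hb1.2, by
          rw [Finset.mem_inter]; tauto, fun Z hZ1 hZ2 => by
          have := hmin1 Z hZ1 hZ2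
          omega⟩
      have h4 := hmin _ h3
      have h5 : X ∩ Y1 = X := Finset.eq_of_subset_of_card_le Finset.inter_subset_left h4
      have h6 : b1 ∈ X ∩ Y1 := by rw [h5]; exact hb1.1
      exact hbY1 (Finset.mem_inter.1 h6).2
  · rw [Finset.not_nonempty_iff_eq_empty] at hne
    obtain ⟨s, t, hst⟩ := hP
    refine ⟨Tm, ⟨s, (hTm s).2 ⟨t, Or.inl hst⟩, t, (hTm t).2 ⟨s, Or.inr hst⟩, hirr _ _ hst⟩,
      ?_, ?_⟩
    · have : ecut src dst Tm = ∅ := by
        rw [Finset.eq_empty_iff_forall_notMem]
        intro g hg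
        rw [mem_ecut] at hg
        have h1 : src g ≠ dst g := fun h => hg (by rw [h])
        have h2 := hall g h1
        tauto
      rw [this, Finset.card_empty]
      exact Nat.zero_le _
    · intro X hX
      obtain ⟨⟨a, ha, haX⟩, b, hb, hbX⟩ := hX
      obtain ⟨Y0, ha0, hb0, hle, hmin0⟩ := exists_min_cut src dst a b X haX hbX
      by_contra hlt
      push Not at hlt
      have : Y0 ∈ S := (hmem _).2 ⟨by omega, a, ha, ha0, b, hb, hb0, hmin0⟩
      rw [hne] at this
      exact absurd this (Finset.notMem_empty _)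

/-- Disjoint connectors inside a block. -/
theorem block_conn (A : Finset V) (N : ℕ) (src dst : E → V)
    (hA : (ecut src dst A).card ≤ 4 * N)
    (hc : ∀ X, Splits A X → 4 * N ≤ (ecut src dst X).card) :
    ∃ I : Fin N → Finset E, (∀ i j, i ≠ j → Disjoint (I i) (I j)) ∧
      ∀ j X, Splits A X → ∃ g ∈ I j, g ∈ ecut src dst X ∧ src g ∈ A ∧ dst g ∈ A := by
  classical
  by_cases hne : A.Nonempty
  swap
  · refine ⟨fun _ => ∅, fun i j _ => by simp, fun j X hX => ?_⟩
    obtain ⟨⟨a, ha, _⟩, _⟩ := hX
    exact absurd ⟨a, ha⟩ hne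
  obtain ⟨r0, hr0⟩ := hne
  let s' : E → V := fun g => if src g ∈ A ∧ dst g ∈ A then src g else r0
  let d' : E → V := fun g => if src g ∈ A ∧ dst g ∈ A then dst g else r0
  have hin : ∀ X g, g ∈ ecut s' d' X ↔ (g ∈ ecut src dst X ∧ src g ∈ A ∧ dst g ∈ A) := by
    intro X g
    rw [mem_ecut, mem_ecut]
    by_cases h : src g ∈ A ∧ dst g ∈ A
    · simp only [s', d', if_pos h]; tauto
    · simp only [s', d', if_neg h]; tauto
  obtain ⟨I, hd, hI⟩ := base A N s' d' (by
    intro X hX
    have h1 : (ecut src dst (X ∩ A)).card + (ecut src dst (A \ X)).card ≤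
        2 * (ecut s' d' X).card + (ecut src dst A).card := by
      have e0 : ∀ Z : Finset V, (ecut src dst Z).card = ∑ g : E, if g ∈ ecut src dst Z then 1 else 0 := by
        intro Z
        rw [Finset.sum_ite_mem, Finset.univ_inter, Finset.card_eq_sum_ones]
      have e1 : (ecut s' d' X).card = ∑ g : E, if g ∈ ecut s' d' X then 1 else 0 := by
        rw [Finset.sum_ite_mem, Finset.univ_inter, Finset.card_eq_sum_ones]
      rw [e0, e0, e0, e1, Finset.mul_sum, ← Finset.sum_add_distrib, ← Finset.sum_add_distrib]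
      refine Finset.sum_le_sum fun g _ => ?_
      have e2 := hin X g
      have e3 := mem_ecut src dst X g
      have e4 := mem_ecut src dst A g
      have e5 := mem_ecut src dst (X ∩ A) g
      have e6 := mem_ecut src dst (A \ X) g
      rw [Finset.mem_inter, Finset.mem_inter] at e5
      rw [Finset.mem_sdiff, Finset.mem_sdiff] at e6
      rw [if_congr e2 rfl rfl, if_congr e4 rfl rfl, if_congr e5 rfl rfl, if_congr e6 rfl rfl]
      simp only [e3]
      by_cases h1 : src g ∈ A <;> by_cases h2 : dst g ∈ A <;> by_cases h3 : src g ∈ X <;>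
        by_cases h4 : dst g ∈ X <;> simp [h1, h2, h3, h4]
    obtain ⟨⟨a, ha, haX⟩, b, hb, hbX⟩ := hX
    have h2 := hc (X ∩ A) ⟨⟨a, ha, Finset.mem_inter.2 ⟨haX, ha⟩⟩, b, hb, by
      rw [Finset.mem_inter]; tauto⟩
    have h3 := hc (A \ X) ⟨⟨b, hb, Finset.mem_sdiff.2 ⟨hb, hbX⟩⟩, a, ha, by
      rw [Finset.mem_sdiff]; tauto⟩
    omega) (by
    intro g
    by_cases h : src g ∈ A ∧ dst g ∈ A
    · simp only [s', d', if_pos h]; exact Or.inr h
    · simp only [s', d', if_neg h]; exact Or.inl trivial)
  exact ⟨I, hd, fun j X hX => by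
    obtain ⟨g, hg, hg'⟩ := hI j X hX
    exact ⟨g, hg, (hin X g).1 hg'⟩⟩

/-- **Forests for pairs.** In a graph all of whose cuts are even, if every vertex set which separates
two vertices which form a pair is left by at least `4 N` edges, then there are `N` disjoint edge
sets each of which connects all pairs. -/
theorem has_forest (N : ℕ) : ∀ (k : ℕ) (P : V → V → Prop) (src dst : E → V), nlp src dst ≤ k →
    (∀ s t, P s t → s ≠ t) →
    (∀ X, Even (ecut src dst X).card) →
    (∀ X, Sep P X → 4 * N ≤ (ecut src dst X).card) → HasForest P N src dst := by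
  classical
  intro k
  induction k with
  | zero =>
    intro P src dst hk hirr hev hc
    by_cases hP : ∃ s t, P s t
    · obtain ⟨s, t, hst⟩ := hP
      have h1 := hc {s} ⟨s, t, hst, by
        rw [Finset.mem_singleton, Finset.mem_singleton]
        intro h
        exact hirr s t hst (h.1 rfl).symm⟩
      have h2 : ecut src dst {s} = ∅ := by
        rw [Finset.eq_empty_iff_forall_notMem]
        intro g hg
        rw [mem_ecut] at hg
        have h3 : src g ≠ dst g := fun h => hg (by rw [h])
        have h4 : 0 < nlp src dst := Finset.card_pos.2 ⟨g, Finset.mem_filter.2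
          ⟨Finset.mem_univ _, h3⟩⟩
        omega
      rw [h2, Finset.card_empty] at h1
      have h5 : N = 0 := by omega
      subst h5
      exact ⟨fun _ => ∅, fun i => i.elim0, fun j => j.elim0⟩
    · refine ⟨fun _ => ∅, fun i j _ => by simp, fun j X hX => ?_⟩
      obtain ⟨s, t, hst, _⟩ := hX
      exact absurd ⟨s, t, hst⟩ hP
  | succ k ih =>
    intro P src dst hk hirr hev hc
    by_cases hP : ∃ s t, P s t
    swap
    · refine ⟨fun _ => ∅, fun i j _ => by simp, fun j X hX => ?_⟩
      obtain ⟨s, t, hst, _⟩ := hX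
      exact absurd ⟨s, t, hst⟩ hP
    rcases Nat.eq_zero_or_pos N with hN | hN
    · subst hN
      exact ⟨fun _ => ∅, fun i => i.elim0, fun j => j.elim0⟩
    set Tm : Finset V := univ.filter (fun v => ∃ u, P v u ∨ P u v) with hTm0
    have hTm : ∀ v, v ∈ Tm ↔ ∃ u, P v u ∨ P u v := by
      intro v; rw [hTm0, Finset.mem_filter]; simp only [Finset.mem_univ, true_and]
    by_cases hall : ∀ g, src g ≠ dst g → src g ∈ Tm ∧ dst g ∈ Tm
    · obtain ⟨A, ⟨a, ha, b, hb, hab⟩, hA, hcA⟩ := exists_block P (4 * N) src dst Tm hTm hirr hc hP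
        hall
      obtain ⟨I, hId, hI⟩ := block_conn A N src dst hA hcA
      let κ : V → V := fun v => if v ∈ A then a else v
      have hκA : ∀ v, v ∈ A → κ v = a := fun v hv => by simp only [κ, if_pos hv]
      have hκn : ∀ v, v ∉ A → κ v = v := fun v hv => by simp only [κ, if_neg hv]
      let P' : V → V → Prop := fun s t => s ≠ t ∧ ∃ s0 t0, P s0 t0 ∧ κ s0 = s ∧ κ t0 = t
      have hpre : ∀ X : Finset V, ecut (fun g => κ (src g)) (fun g => κ (dst g)) X =
          ecut src dst (univ.filter (fun v => κ v ∈ X)) := by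
        intro X
        ext g
        rw [mem_ecut, mem_ecut, Finset.mem_filter, Finset.mem_filter]
        simp only [Finset.mem_univ, true_and]
      have hnlp : nlp (fun g => κ (src g)) (fun g => κ (dst g)) ≤ k := by
        have h1 : nlp (fun g => κ (src g)) (fun g => κ (dst g)) < nlp src dst := by
          unfold nlp
          apply Finset.card_lt_card
          rw [Finset.ssubset_iff_of_subset]
          · obtain ⟨g, -, hg, hg1, hg2⟩ := hI ⟨0, hN⟩ {a} ⟨⟨a, ha, Finset.mem_singleton_self _⟩,
              b, hb, by rw [Finset.mem_singleton]; exact hab.symm⟩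
            refine ⟨g, ?_, ?_⟩
            · rw [Finset.mem_filter]
              refine ⟨Finset.mem_univ _, fun h => ?_⟩
              rw [mem_ecut, h] at hg
              exact hg Iff.rfl
            · rw [Finset.mem_filter]
              rintro ⟨-, h⟩
              exact h (by show κ (src g) = κ (dst g); rw [hκA _ hg1, hκA _ hg2])
          · intro g hg
            rw [Finset.mem_filter] at hg ⊢
            exact ⟨hg.1, fun h => hg.2 (by show κ (src g) = κ (dst g); rw [h])⟩
        omega
      obtain ⟨R', hRd, hR'⟩ := ih P' (fun g => κ (src g)) (fun g => κ (dst g)) hnlp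
        (fun s t h => h.1) (fun X => by rw [hpre]; exact hev _) (by
          intro X hX
          rw [hpre]
          apply hc
          obtain ⟨s, t, ⟨-, s0, t0, h0, hs0, ht0⟩, hst⟩ := hX
          refine ⟨s0, t0, h0, ?_⟩
          rw [Finset.mem_filter, Finset.mem_filter, hs0, ht0]
          simpa using hst)
      refine ⟨fun j => (R' j).filter (fun g => ¬ (src g ∈ A ∧ dst g ∈ A)) ∪
        (I j).filter (fun g => src g ∈ A ∧ dst g ∈ A), ?_, ?_⟩
      · intro i j hij
        have h1 := Finset.disjoint_left.1 (hRd i j hij)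
        have h2 := Finset.disjoint_left.1 (hId i j hij)
        rw [Finset.disjoint_left]
        intro g hg hg'
        simp only [Finset.mem_union, Finset.mem_filter] at hg hg'
        rcases hg with ⟨h3, h4⟩ | ⟨h3, h4⟩ <;> rcases hg' with ⟨h5, h6⟩ | ⟨h5, h6⟩
        · exact h1 h3 h5
        · exact h4 h6
        · exact h6 h4
        · exact h2 h3 h5
      · intro j X hX
        by_cases hs : Splits A X
        · obtain ⟨g, hg, hgX, hg1, hg2⟩ := hI j X hs
          exact ⟨g, Finset.mem_union_right _ (Finset.mem_filter.2 ⟨hg, hg1, hg2⟩), hgX⟩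
        · have hκX : ∀ v, (κ v ∈ X ↔ v ∈ X) := by
            intro v
            by_cases hv : v ∈ A
            · rw [hκA v hv]
              constructor
              · intro h
                by_contra h'
                exact hs ⟨⟨a, ha, h⟩, v, hv, h'⟩
              · intro h
                by_contra h'
                exact hs ⟨⟨v, hv, h⟩, a, ha, h'⟩
            · rw [hκn v hv]
          obtain ⟨s0, t0, h0, hst⟩ := hX
          have hst' : ¬ (κ s0 ∈ X ↔ κ t0 ∈ X) := by rw [hκX, hκX]; exact hst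
          obtain ⟨g, hg, hgX⟩ := hR' j X ⟨κ s0, κ t0, ⟨fun h => hst' (by rw [h]), s0, t0, h0, rfl,
            rfl⟩, hst'⟩
          rw [mem_ecut] at hgX
          refine ⟨g, Finset.mem_union_left _ (Finset.mem_filter.2 ⟨hg, ?_⟩), ?_⟩
          · rintro ⟨h1, h2⟩
            exact hgX (by rw [hκA _ h1, hκA _ h2])
          · rw [mem_ecut, ← hκX, ← hκX (dst g)]
            exact hgX
    · push Not at hall
      obtain ⟨e, he1, he2⟩ := hall
      obtain ⟨y, a, hyA, hay, he⟩ : ∃ y a, y ∉ Tm ∧ a ≠ y ∧ Joins src dst e y a := by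
        by_cases h : src e ∈ Tm
        · exact ⟨dst e, src e, he2 h, he1, Or.inr ⟨rfl, rfl⟩⟩
        · exact ⟨src e, dst e, h, fun h' => he1 h'.symm, Or.inl ⟨rfl, rfl⟩⟩
      have hyP : ∀ s t, P s t → s ≠ y ∧ t ≠ y := by
        intro s t hst
        exact ⟨fun h => hyA ((hTm y).2 ⟨t, Or.inl (h ▸ hst)⟩),
          fun h => hyA ((hTm y).2 ⟨s, Or.inr (h ▸ hst)⟩)⟩
      obtain ⟨f, b, hef, hby, hf, hc'⟩ := exists_admissible' P (2 * N) src dst hev
        (fun X hX => by have := hc X hX; omega) y a hyP hay e he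
      apply lift_conn' P N src dst e f hef y a b he hf
      apply ih P
      · have := nlp_split src dst e f hef y a b hay hby he hf
        omega
      · exact hirr
      · exact even_split src dst e f hef y a b he hf hev
      · intro X hX
        have := hc' X hX
        omega

end Pool.Agent.J4.H47.HE
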