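import Pool.Agent.J4.H47.HE.Conn

set_option autoImplicit false
set_option linter.unusedSectionVars false
set_option linter.unusedVariables false

/-!
Edge-disjoint connectors: the base case (disjoint spanning trees) and the main theorem.
-/

namespace Pool.Agent.J4.H47.HE

open Finset
open Pool.Agent.H239R2.Cover (ecut mem_ecut Leaves rv inc Rt rank_cond span_of_connects incR
  incR_restrict Connects)
open Pool.Agent.H185F (ecut_compl)
open Pool.Agent.Helper879.ECD (sp)

variable {V E : Type} [Fintype V] [DecidableEq V] [Fintype E] [DecidableEq E]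

/-- A spanning set of incidence vectors connects. -/
theorem connects_of_span {W : Type} [Fintype W] [DecidableEq W] (src dst : E → W) (r : W)
    (I : Finset E)
    (hI : Submodule.span ℝ ((fun e => rv (inc src dst r e)) '' (I : Set E)) = ⊤) :
    Connects src dst I := by
  classical
  -- sets without the root
  have main : ∀ X : Finset W, X.Nonempty → r ∉ X → ∃ e ∈ I, Leaves src dst X e := by
    intro X hX hr
    by_contra hno
    push Not at hno
    let φ : (Rt r → ℝ) →ₗ[ℝ] ℝ :=
      { toFun := fun x => ∑ v : Rt r, if v.1 ∈ X then x v else 0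
        map_add' := by
          intro x y
          rw [← Finset.sum_add_distrib]
          refine Finset.sum_congr rfl fun v _ => ?_
          by_cases h : v.1 ∈ X <;> simp [h]
        map_smul' := by
          intro c x
          rw [RingHom.id_apply, smul_eq_mul, Finset.mul_sum]
          refine Finset.sum_congr rfl fun v _ => ?_
          by_cases h : v.1 ∈ X <;> simp [h] }
    have hsum : ∀ w : W, (∑ v : Rt r, if v.1 ∈ X then (if w = v.1 then (1:ℝ) else 0) else 0) =
        if w ∈ X then 1 else 0 := by
      intro w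
      by_cases hw : w ∈ X
      · have hwr : w ≠ r := fun h => hr (h ▸ hw)
        rw [Finset.sum_eq_single (⟨w, hwr⟩ : Rt r)]
        · simp [hw]
        · intro v _ hv
          have : ¬ w = v.1 := fun h => hv (Subtype.ext h.symm)
          simp [this]
        · intro h; exact absurd (Finset.mem_univ _) h
      · rw [if_neg hw]
        apply Finset.sum_eq_zero
        intro v _
        by_cases h : v.1 ∈ X
        · have : ¬ w = v.1 := fun h' => hw (h' ▸ h)
          simp [this]
        · simp [h]
    have h1 : ∀ e ∈ I, φ (rv (inc src dst r e)) = 0 := by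
      intro e he
      have h2 := hno e he
      unfold Leaves at h2
      rw [not_not] at h2
      show (∑ v : Rt r, if v.1 ∈ X then rv (inc src dst r e) v else 0) = 0
      have h3 : ∀ v ∈ (univ : Finset (Rt r)), (if v.1 ∈ X then rv (inc src dst r e) v else 0) =
          (if v.1 ∈ X then (if src e = v.1 then (1:ℝ) else 0) else 0) -
          (if v.1 ∈ X then (if dst e = v.1 then (1:ℝ) else 0) else 0) := by
        intro v _
        rw [incR_restrict]
        unfold incR
        by_cases h : v.1 ∈ X <;> simp [h]
      rw [Finset.sum_congr rfl h3, Finset.sum_sub_distrib, hsum, hsum]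
      by_cases h4 : src e ∈ X
      · rw [if_pos h4, if_pos (h2.1 h4), sub_self]
      · rw [if_neg h4, if_neg (fun h => h4 (h2.2 h)), sub_self]
    have h2 : (⊤ : Submodule ℝ (Rt r → ℝ)) ≤ LinearMap.ker φ := by
      rw [← hI, Submodule.span_le]
      rintro _ ⟨e, he, rfl⟩
      exact h1 e he
    obtain ⟨x, hx⟩ := hX
    have hxr : x ≠ r := fun h => hr (h ▸ hx)
    have h3 : φ (Pi.single (⟨x, hxr⟩ : Rt r) 1) = 0 := h2 Submodule.mem_top
    have h4 : φ (Pi.single (⟨x, hxr⟩ : Rt r) 1) = 1 := by
      show (∑ v : Rt r, if v.1 ∈ X then (Pi.single (⟨x, hxr⟩ : Rt r) (1:ℝ) : Rt r → ℝ) v else 0) = 1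
      rw [Finset.sum_eq_single (⟨x, hxr⟩ : Rt r)]
      · simp [hx]
      · intro v _ hv
        rw [Pi.single_eq_of_ne hv]
        simp
      · intro h; exact absurd (Finset.mem_univ _) h
    rw [h3] at h4
    exact zero_ne_one h4
  intro X hX hXu
  by_cases hr : r ∈ X
  · have h1 : (Xᶜ).Nonempty := by
      rw [Finset.nonempty_iff_ne_empty]
      intro h
      exact hXu (Finset.compl_eq_empty_iff X |>.1 h)
    obtain ⟨e, he, hl⟩ := main Xᶜ h1 (by simpa using hr)
    refine ⟨e, he, ?_⟩
    unfold Leaves at hl ⊢
    rw [Finset.mem_compl, Finset.mem_compl] at hl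
    tauto
  · exact main X hX hr

/-- Base case: all edges are loops or join vertices of `A`. -/
theorem base (A : Finset V) (N : ℕ) (src dst : E → V)
    (hc : ∀ X, Splits A X → 2 * N ≤ (ecut src dst X).card)
    (hmu : ∀ g, src g = dst g ∨ (src g ∈ A ∧ dst g ∈ A)) : HasConn A N src dst := by
  classical
  by_cases hA : A.Nonempty
  swap
  · refine ⟨fun _ => ∅, fun i j _ => by simp, ?_⟩
    intro j X hX
    obtain ⟨⟨a, ha, _⟩, _⟩ := hX
    exact absurd ⟨a, ha⟩ hA
  obtain ⟨r0, hr0⟩ := hA
  rcases Nat.eq_zero_or_pos N with hN | hN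
  · subst hN
    exact ⟨fun _ => ∅, fun i => i.elim0, fun j => j.elim0⟩
  let W := {v : V // v ∈ A}
  let r : W := ⟨r0, hr0⟩
  let π : V → W := fun v => if h : v ∈ A then ⟨v, h⟩ else r
  let s' : E → W := fun g => π (src g)
  let d' : E → W := fun g => π (dst g)
  have hπ : ∀ v (h : v ∈ A), π v = ⟨v, h⟩ := fun v h => by simp only [π, dif_pos h]
  -- cuts
  have hcut : ∀ X : Finset V, univ.filter (Leaves s' d' (univ.filter (fun w : W => w.1 ∈ X))) =
      univ.filter (fun g => src g ≠ dst g ∧ ¬ (src g ∈ X ↔ dst g ∈ X)) := by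
    intro X
    ext g
    rw [Finset.mem_filter, Finset.mem_filter]
    simp only [Finset.mem_univ, true_and, Leaves, Finset.mem_filter]
    rcases hmu g with h | ⟨h1, h2⟩
    · simp [s', d', h]
    · simp only [s', d', hπ _ h1, hπ _ h2]
      constructor
      · intro h
        exact ⟨fun h' => h (by rw [h']), h⟩
      · exact fun h => h.2
  have hcut' : ∀ X : Finset V, univ.filter (fun g => src g ≠ dst g ∧ ¬ (src g ∈ X ↔ dst g ∈ X)) =
      ecut src dst X := by
    intro X
    ext g
    rw [Finset.mem_filter, mem_ecut]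
    constructor
    · exact fun h => h.2.2
    · intro h
      exact ⟨Finset.mem_univ _, fun h' => h (by rw [h']), h⟩
  have hcon : ∀ Y : Finset W, Y.Nonempty → Y ≠ univ →
      2 * N ≤ (univ.filter (Leaves s' d' Y)).card := by
    intro Y hY hYu
    set X : Finset V := Y.map (Function.Embedding.subtype _) with hX
    have h1 : Y = univ.filter (fun w : W => w.1 ∈ X) := by
      ext w
      rw [Finset.mem_filter, hX, Finset.mem_map]
      constructor
      · intro h
        exact ⟨Finset.mem_univ _, w, h, rfl⟩
      · rintro ⟨-, w', hw', h⟩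
        have : w' = w := Subtype.ext h
        exact this ▸ hw'
    rw [h1, hcut X, hcut' X]
    apply hc
    obtain ⟨w, hw⟩ := hY
    have h2 : ∃ w', w' ∉ Y := by
      by_contra h
      push Not at h
      exact hYu (Finset.eq_univ_iff_forall.2 h)
    obtain ⟨w', hw'⟩ := h2
    refine ⟨⟨w.1, w.2, ?_⟩, w'.1, w'.2, ?_⟩
    · rw [h1, Finset.mem_filter] at hw
      exact hw.2
    · intro h
      apply hw'
      rw [h1, Finset.mem_filter]
      exact ⟨Finset.mem_univ _, h⟩
  have huniv : sp ℝ (fun e => rv (inc s' d' r e)) (univ : Finset E) = ⊤ := by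
    apply span_of_connects
    intro X h1 h2
    have h3 := hcon X h1 h2
    have h4 : 0 < (univ.filter (Leaves s' d' X)).card := by omega
    obtain ⟨e, he⟩ := Finset.card_pos.mp h4
    exact ⟨e, Finset.mem_univ _, (Finset.mem_filter.mp he).2⟩
  obtain ⟨I, hd, hI⟩ := Pool.Agent.H126R2.CDC.packK (F := ℝ) (K := Fin N)
    (x := fun e => rv (inc s' d' r e)) (by
      intro R
      rw [huniv, finrank_top, Module.finrank_fintype_fun_eq_card, Fintype.card_fin]
      convert rank_cond s' d' r N hcon (sp ℝ (fun e => rv (inc s' d' r e)) R))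
  refine ⟨I, hd, ?_⟩
  intro j X hX
  have h1 : Connects s' d' (I j) := connects_of_span s' d' r (I j) (by
    have := hI j
    rw [huniv] at this
    exact this)
  obtain ⟨⟨a, ha, haX⟩, b, hb, hbX⟩ := hX
  obtain ⟨g, hg, hl⟩ := h1 (univ.filter (fun w : W => w.1 ∈ X))
    ⟨⟨a, ha⟩, Finset.mem_filter.2 ⟨Finset.mem_univ _, haX⟩⟩ (by
      intro h
      have h5 : (⟨b, hb⟩ : W) ∈ univ.filter (fun w : W => w.1 ∈ X) := by
        rw [h]; exact Finset.mem_univ _
      rw [Finset.mem_filter] at h5
      exact hbX h5.2)
  refine ⟨g, hg, ?_⟩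
  have h2 : g ∈ univ.filter (Leaves s' d' (univ.filter (fun w : W => w.1 ∈ X))) :=
    Finset.mem_filter.2 ⟨Finset.mem_univ _, hl⟩
  rw [hcut X, hcut' X] at h2
  exact h2

/-- **Connectors.** In a graph all of whose cuts are even, if every vertex set which separates two
vertices of `A` is left by at least `2 N` edges, then there are `N` disjoint edge sets each of which
connects `A`. -/
theorem has_conn (A : Finset V) (N : ℕ) : ∀ (k : ℕ) (src dst : E → V), mu A src dst ≤ k →
    (∀ X, Even (ecut src dst X).card) →
    (∀ X, Splits A X → 2 * N ≤ (ecut src dst X).card) → HasConn A N src dst := by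
  classical
  intro k
  induction k with
  | zero =>
    intro src dst hmu hev hc
    apply base A N src dst hc
    intro g
    by_contra hg
    push Not at hg
    have h1 : g ∈ univ.filter (fun g => src g ≠ dst g ∧ (src g ∉ A ∨ dst g ∉ A)) := by
      rw [Finset.mem_filter]
      refine ⟨Finset.mem_univ _, hg.1, ?_⟩
      by_cases h : src g ∈ A
      · exact Or.inr (hg.2 h)
      · exact Or.inl h
    have h2 : 0 < mu A src dst := Finset.card_pos.2 ⟨g, h1⟩
    omega
  | succ k ih =>
    intro src dst hmu hev hc
    by_cases hall : ∀ g, src g = dst g ∨ (src g ∈ A ∧ dst g ∈ A)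
    · exact base A N src dst hc hall
    · push Not at hall
      obtain ⟨e, he1, he2⟩ := hall
      obtain ⟨y, a, hyA, hay, he⟩ : ∃ y a, y ∉ A ∧ a ≠ y ∧ Joins src dst e y a := by
        by_cases h : src e ∈ A
        · exact ⟨dst e, src e, he2 h, he1, Or.inr ⟨rfl, rfl⟩⟩
        · exact ⟨src e, dst e, h, fun h' => he1 h'.symm, Or.inl ⟨rfl, rfl⟩⟩
      obtain ⟨f, b, hef, hby, hf, hc'⟩ := exists_admissible A N src dst hev hc y a hyA hay e he
      apply lift_conn A N src dst e f hef y a b he hf
      apply ih
      · have := mu_split A src dst e f hef y a b hyA hay hby he hf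
        omega
      · exact even_split src dst e f hef y a b he hf hev
      · exact hc'

end Pool.Agent.J4.H47.HE
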